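import Pool.Agent.U523.WC.Crit
import Mathlib

/-!
# Weighted composition operators: vectors, functionals, orbits
-/

set_option autoImplicit false
open MeasureTheory Filter Topology Set

namespace Pool.Agent.U523.WC

variable {Ω : Type} [MeasurableSpace Ω] {μ : Measure Ω} [IsProbabilityMeasure μ] {p : ENNReal}
  [Fact (1 ≤ p)]

theorem lp_integrable (h : Lp ℂ p μ) : Integrable (h : Ω → ℂ) μ :=
  (Lp.memLp h).integrable Fact.out

theorem integral_norm_le (h : Lp ℂ p μ) : ∫ v, ‖h v‖ ∂μ ≤ ‖h‖ := by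
  have h1 := eLpNorm_le_eLpNorm_of_exponent_le (μ := μ) (p := 1) (q := p) Fact.out
    (Lp.memLp h).aestronglyMeasurable
  rw [Lp.norm_def, integral_norm_eq_lintegral_enorm (Lp.memLp h).aestronglyMeasurable,
    ← eLpNorm_one_eq_lintegral_enorm]
  exact ENNReal.toReal_mono (Lp.memLp h).eLpNorm_lt_top.ne h1

/-- pairing with a bounded function -/
noncomputable def pair (ρ : Ω → ℂ) (M : ℝ) (hρ : Measurable ρ) (hM : ∀ v, ‖ρ v‖ ≤ M) :
    Lp ℂ p μ →L[ℂ] ℂ :=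
  LinearMap.mkContinuous
    { toFun := fun h => ∫ v, ρ v * h v ∂μ
      map_add' := fun f g => by
        have e1 : ∀ᵐ v ∂μ, ρ v * (f + g : Lp ℂ p μ) v = ρ v * f v + ρ v * g v := by
          filter_upwards [Lp.coeFn_add f g] with v hv
          rw [hv, Pi.add_apply, mul_add]
        rw [integral_congr_ae e1]
        refine integral_add ?_ ?_
        · exact (lp_integrable f).bdd_mul hρ.aestronglyMeasurable (ae_of_all _ hM)
        · exact (lp_integrable g).bdd_mul hρ.aestronglyMeasurable (ae_of_all _ hM)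
      map_smul' := fun c f => by
        have e1 : ∀ᵐ v ∂μ, ρ v * (c • f : Lp ℂ p μ) v = c * (ρ v * f v) := by
          filter_upwards [Lp.coeFn_smul c f] with v hv
          rw [hv, Pi.smul_apply, smul_eq_mul]; ring
        rw [integral_congr_ae e1, integral_const_mul]
        rfl } M (fun h => by
      have hi : Integrable (fun v => ρ v * h v) μ :=
        (lp_integrable h).bdd_mul hρ.aestronglyMeasurable (ae_of_all _ hM)
      calc ‖∫ v, ρ v * h v ∂μ‖ ≤ ∫ v, ‖ρ v * h v‖ ∂μ := norm_integral_le_integral_norm _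
        _ ≤ ∫ v, M * ‖h v‖ ∂μ := by
            refine integral_mono hi.norm ((lp_integrable h).norm.const_mul M) fun v => ?_
            simp only [norm_mul]
            exact mul_le_mul_of_nonneg_right (hM v) (norm_nonneg _)
        _ = M * ∫ v, ‖h v‖ ∂μ := integral_const_mul _ _
        _ ≤ M * ‖h‖ := by
            have hM0 : 0 ≤ M := by
              obtain ⟨v⟩ := nonempty_of_isProbabilityMeasure μ
              exact (norm_nonneg _).trans (hM v)
            exact mul_le_mul_of_nonneg_left (integral_norm_le h) hM0)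

theorem pair_apply (ρ : Ω → ℂ) (M : ℝ) (hρ : Measurable ρ) (hM : ∀ v, ‖ρ v‖ ≤ M) (h : Lp ℂ p μ) :
    pair ρ M hρ hM h = ∫ v, ρ v * h v ∂μ := rfl

theorem norm_pair_le (ρ : Ω → ℂ) (M : ℝ) (hρ : Measurable ρ) (hM : ∀ v, ‖ρ v‖ ≤ M) (hM0 : 0 ≤ M) :
    ‖(pair ρ M hρ hM : Lp ℂ p μ →L[ℂ] ℂ)‖ ≤ M :=
  LinearMap.mkContinuous_norm_le _ hM0 _

/-- a bounded function as an element of `L^p` -/
noncomputable def bvec (g : Ω → ℂ) (M : ℝ) (hg : Measurable g) (hM : ∀ v, ‖g v‖ ≤ M) : Lp ℂ p μ :=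
  (MemLp.of_bound hg.aestronglyMeasurable M (ae_of_all μ hM)).toLp g

theorem coe_bvec (g : Ω → ℂ) (M : ℝ) (hg : Measurable g) (hM : ∀ v, ‖g v‖ ≤ M) :
    (bvec g M hg hM : Lp ℂ p μ) =ᵐ[μ] g := MemLp.coeFn_toLp _

theorem norm_bvec_le (g : Ω → ℂ) (M : ℝ) (hg : Measurable g) (hM : ∀ v, ‖g v‖ ≤ M) (hM0 : 0 ≤ M) :
    ‖(bvec g M hg hM : Lp ℂ p μ)‖ ≤ M := by
  rw [bvec, Lp.norm_toLp]
  have h1 := eLpNorm_le_of_ae_bound (p := p) (ae_of_all μ hM)
  rw [measure_univ, ENNReal.one_rpow, one_mul] at h1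
  exact ENNReal.toReal_le_of_le_ofReal hM0 h1

/-- the integer iterates -/
def tz (τ : Ω ≃ᵐ Ω) (n : ℤ) (v : Ω) : Ω := ((τ.toEquiv : Equiv.Perm Ω) ^ n) v

theorem tz_zero (τ : Ω ≃ᵐ Ω) (v : Ω) : tz τ 0 v = v := rfl

theorem tz_add (τ : Ω ≃ᵐ Ω) (m n : ℤ) (v : Ω) : tz τ (m + n) v = tz τ m (tz τ n v) := by
  rw [tz, zpow_add]; rfl

theorem tz_one (τ : Ω ≃ᵐ Ω) (v : Ω) : tz τ 1 v = τ v := by
  rw [tz, zpow_one]; rfl

theorem tz_neg_one (τ : Ω ≃ᵐ Ω) (v : Ω) : tz τ (-1) v = τ.symm v := by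
  rw [tz, zpow_neg_one]; rfl

theorem tz_succ (τ : Ω ≃ᵐ Ω) (n : ℤ) (v : Ω) : tz τ (n + 1) v = τ (tz τ n v) := by
  rw [add_comm, tz_add, tz_one]

theorem tz_succ' (τ : Ω ≃ᵐ Ω) (n : ℤ) (v : Ω) : tz τ (n + 1) v = tz τ n (τ v) := by
  rw [tz_add, tz_one]

theorem tz_neg_tz (τ : Ω ≃ᵐ Ω) (n : ℤ) (v : Ω) : tz τ (-n) (tz τ n v) = v := by
  rw [← tz_add]; simp [tz_zero]

theorem tz_tz_neg (τ : Ω ≃ᵐ Ω) (n : ℤ) (v : Ω) : tz τ n (tz τ (-n) v) = v := by
  rw [← tz_add]; simp [tz_zero]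

theorem tz_mp {τ : Ω ≃ᵐ Ω} (hτ : MeasurePreserving τ μ μ) (n : ℤ) : MeasurePreserving (tz τ n) μ μ := by
  have hs : MeasurePreserving τ.symm μ μ := hτ.symm τ
  induction n using Int.induction_on with
  | zero => exact MeasurePreserving.id μ
  | succ i ih =>
    have : tz τ ((i : ℤ) + 1) = τ ∘ tz τ i := by funext v; exact tz_succ τ i v
    rw [this]; exact hτ.comp ih
  | pred i ih =>
    have : tz τ (-(i : ℤ) - 1) = τ.symm ∘ tz τ (-i) := by
      funext v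
      rw [Function.comp, ← tz_neg_one, ← tz_add]; congr 1; ring
    rw [this]; exact hs.comp ih

/-- the cocycle of the weight -/
noncomputable def coc (τ : Ω ≃ᵐ Ω) (w : Ω → ℂ) : ℤ → Ω → ℂ
  | Int.ofNat n, v => ∏ k ∈ Finset.range n, w (tz τ k v)
  | Int.negSucc n, v => (∏ k ∈ Finset.range (n + 1), w (tz τ (-((k : ℤ) + 1)) v))⁻¹

theorem coc_zero (τ : Ω ≃ᵐ Ω) (w : Ω → ℂ) (v : Ω) : coc τ w 0 v = 1 := by
  show coc τ w (Int.ofNat 0) v = 1
  simp [coc]

theorem coc_meas {τ : Ω ≃ᵐ Ω} (hτ : MeasurePreserving τ μ μ) {w : Ω → ℂ} (hw : Measurable w) (n : ℤ) :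
    Measurable (coc τ w n) := by
  cases n with
  | ofNat n =>
    show Measurable fun v => ∏ k ∈ Finset.range n, w (tz τ k v)
    exact Finset.measurable_prod _ fun k _ => hw.comp (tz_mp hτ k).measurable
  | negSucc n =>
    show Measurable fun v => (∏ k ∈ Finset.range (n + 1), w (tz τ (-((k : ℤ) + 1)) v))⁻¹
    exact (Finset.measurable_prod _ fun k _ => hw.comp (tz_mp hτ _).measurable).inv

theorem coc_succ {τ : Ω ≃ᵐ Ω} {w : Ω → ℂ} {v : Ω} (hv : ∀ k, w (tz τ k v) ≠ 0) (n : ℤ) :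
    coc τ w (n + 1) v = coc τ w n v * w (tz τ n v) := by
  cases n with
  | ofNat n =>
    show coc τ w (Int.ofNat (n + 1)) v = _
    simp only [coc]
    rw [Finset.prod_range_succ]; rfl
  | negSucc n =>
    cases n with
    | zero =>
      show coc τ w (Int.ofNat 0) v = _
      have h1 : (Int.negSucc 0 : ℤ) = -(((0 : ℕ) : ℤ) + 1) := rfl
      simp only [coc, Finset.range_zero, Finset.prod_empty, zero_add, Finset.range_one,
        Finset.prod_singleton]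
      rw [h1, inv_mul_cancel₀ (hv _)]
    | succ n =>
      have h0 : (Int.negSucc (n + 1) + 1 : ℤ) = Int.negSucc n := by omega
      have h1 : (Int.negSucc (n + 1) : ℤ) = -(((n + 1 : ℕ) : ℤ) + 1) := rfl
      rw [h0]
      simp only [coc]
      rw [Finset.prod_range_succ (n := n + 1), mul_inv, mul_assoc, h1,
        inv_mul_cancel₀ (hv _), mul_one]

theorem coc_ne {τ : Ω ≃ᵐ Ω} {w : Ω → ℂ} {v : Ω} (hv : ∀ k, w (tz τ k v) ≠ 0) (n : ℤ) :
    coc τ w n v ≠ 0 := by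
  cases n with
  | ofNat n => exact Finset.prod_ne_zero_iff.2 fun k _ => hv _
  | negSucc n => exact inv_ne_zero (Finset.prod_ne_zero_iff.2 fun k _ => hv _)

end Pool.Agent.U523.WC
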