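import Pool.Agent.U523.WC.Decay
import Pool.Agent.U523.WC.App

/-!
# Weighted composition operators with small Birkhoff sums on a set of positive measure
-/

set_option autoImplicit false
open MeasureTheory Filter Topology Set

namespace Pool.Agent.U523.WC

theorem tail (W : ℤ → ℝ) (hW : Summable W) (δ : ℝ) (hδ : 0 < δ) :
    ∃ N : ℕ, ∀ u : ℤ → ℂ, (∀ n, n ≠ 0 → ‖u n‖ ≤ W n) → (∀ n : ℤ, n ≠ 0 → |n| ≤ N → u n = 0) →
      ‖∑' n, u n - u 0‖ < δ := by
  have h1 := tendsto_tsum_compl_atTop_zero W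
  obtain ⟨s, hs⟩ := (h1.eventually_lt_const hδ).exists_forall_of_atTop
  set s' : Finset ℤ := insert 0 s with hs'
  have h2 : ∑' b : {x // x ∉ s'}, W b < δ := hs s' (Finset.subset_insert _ _)
  refine ⟨s'.sup Int.natAbs, fun u hu hu0 => ?_⟩
  have hW' : Summable fun b : {x // x ∉ s'} => W b := hW.comp_injective Subtype.val_injective
  have hne : ∀ b : {x // x ∉ s'}, (b : ℤ) ≠ 0 := fun b hb => b.2 (by rw [hb]; simp [hs'])
  have hus : Summable u := by
    refine Summable.of_norm_bounded_eventually hW ?_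
    have h3 : ({0} : Set ℤ).Finite := Set.finite_singleton 0
    filter_upwards [h3.compl_mem_cofinite] with n hn
    exact hu n hn
  have h3 := hus.sum_add_tsum_compl (s := s')
  have h4 : ∑ b ∈ s', u b = u 0 := by
    refine Finset.sum_eq_single_of_mem 0 (by simp [hs']) fun n hn hn0 => hu0 n hn0 ?_
    have h5 : n.natAbs ≤ s'.sup Int.natAbs := Finset.le_sup (f := Int.natAbs) hn
    rw [Int.abs_eq_natAbs]
    exact_mod_cast h5
  rw [h4] at h3
  rw [← h3, add_sub_cancel_left]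
  have h6 : ‖∑' b : {x // x ∉ s'}, u b‖ ≤ ∑' b : {x // x ∉ s'}, W b :=
    tsum_of_norm_bounded hW'.hasSum fun b => hu b (hne b)
  exact lt_of_le_of_lt h6 h2

variable {Ω : Type} [MeasurableSpace Ω] {μ : Measure Ω} [IsProbabilityMeasure μ] {p : ENNReal}
  [Fact (1 ≤ p)]

theorem core {τ : Ω ≃ᵐ Ω} (hτ : MeasurePreserving τ μ μ) {w : Ω → ℂ} (hw : Measurable w)
    (T : Lp ℂ p μ →L[ℂ] Lp ℂ p μ)
    (hT : ∀ f : Lp ℂ p μ, (T f : Ω → ℂ) =ᵐ[μ] fun v => w v * f (τ v))
    {θ R : ℝ} (hθ0 : 0 ≤ θ) (hθ1 : θ < 1)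
    (hE : ∀ N : ℕ, ∃ E : Set Ω, MeasurableSet E ∧ μ E ≠ 0 ∧
      (∀ v ∈ E, ∀ k, w (tz τ k v) ≠ 0) ∧
      (∀ v ∈ E, ∀ n : ℤ, ‖coc τ w n v‖ ≤ Real.exp (R * (1 + |(n : ℝ)|) ^ θ) ∧
        ‖coc τ w n v‖⁻¹ ≤ Real.exp (R * (1 + |(n : ℝ)|) ^ θ)) ∧
      ∀ v ∈ E, ∀ n : ℤ, n ≠ 0 → |n| ≤ N → tz τ n v ∉ E) : HasHyper T := by
  obtain ⟨a, c, C, hc, ha0, haB, hconv⟩ := exists_divisor ((1 + θ) / 2) (by linarith) (by linarith)
  set B : ℤ → ℝ := fun n => Real.exp (R * (1 + |(n : ℝ)|) ^ θ) with hB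
  have hBp : ∀ n, 0 < B n := fun n => Real.exp_pos _
  have hWs : Summable fun n => ‖a n‖ * B n := by
    have h1 := (summable_weight (s := (1 + θ) / 2) (R := R) hθ0 (by linarith) hc).mul_left C
    refine Summable.of_nonneg_of_le (fun n => by have := hBp n; positivity) (fun n => ?_) h1
    calc ‖a n‖ * B n ≤ (C * Real.exp (-(c * (1 + |(n : ℝ)|) ^ ((1 + θ) / 2)))) * B n :=
          mul_le_mul_of_nonneg_right (haB n) (hBp n).le
      _ = _ := by simp only [hB]; ring
  set b : ℤ → ℂ := fun n => e n (1 / 2) * a n with hb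
  have hbn : ∀ n, ‖b n‖ = ‖a n‖ := fun n => by simp only [hb, norm_mul, norm_e, one_mul]
  obtain ⟨N, hN⟩ := tail _ hWs ‖a 0‖ (norm_pos_iff.2 ha0)
  obtain ⟨E, hEm, hEp, hEw, hEg, hEd⟩ := hE N
  have hμE : 0 < μ.real E := by
    rw [measureReal_def]
    exact ENNReal.toReal_pos hEp (measure_ne_top _ _)
  -- the functions
  set g : ℤ → Ω → ℂ := fun n => E.indicator fun v => (coc τ w (-n) v)⁻¹ with hg
  set ρ : ℤ → Ω → ℂ := fun n => E.indicator (coc τ w n) with hρ
  have hgm : ∀ n, Measurable (g n) := fun n => ((coc_meas hτ hw _).inv).indicator hEm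
  have hρm : ∀ n, Measurable (ρ n) := fun n => (coc_meas hτ hw _).indicator hEm
  have hgB : ∀ n v, ‖g n v‖ ≤ B n := by
    intro n v
    by_cases hv : v ∈ E
    · simp only [hg, indicator_of_mem hv, norm_inv]
      have := (hEg v hv (-n)).2
      simpa [hB] using this
    · simp only [hg, indicator_of_notMem hv, norm_zero]
      exact (hBp n).le
  have hρB : ∀ n v, ‖ρ n v‖ ≤ B n := by
    intro n v
    by_cases hv : v ∈ E
    · simp only [hρ, indicator_of_mem hv]
      exact (hEg v hv n).1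
    · simp only [hρ, indicator_of_notMem hv, norm_zero]
      exact (hBp n).le
  set x : ℤ → Lp ℂ p μ := fun n => bvec (fun u => g n (tz τ n u)) (B n)
    ((hgm n).comp (tz_mp hτ n).measurable) (fun u => hgB n _) with hx
  set y : ℤ → (Lp ℂ p μ →L[ℂ] ℂ) := fun n => (pair (ρ n) (B n) (hρm n) (hρB n)).comp
    ((Lp.compMeasurePreservingₗᵢ ℂ (tz τ n) (tz_mp hτ n)).toContinuousLinearMap) with hy
  have hxc : ∀ n, (x n : Ω → ℂ) =ᵐ[μ] fun u => g n (tz τ n u) := fun n => coe_bvec _ _ _ _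
  have hyc : ∀ n (h : Lp ℂ p μ), y n h = ∫ v, ρ n v * h (tz τ n v) ∂μ := by
    intro n h
    show ∫ v, ρ n v * (Lp.compMeasurePreservingₗᵢ ℂ (tz τ n) (tz_mp hτ n) h : Lp ℂ p μ) v ∂μ = _
    refine integral_congr_ae ?_
    filter_upwards [Lp.coeFn_compMeasurePreserving h (tz_mp hτ n)] with v hv
    have h2 : (Lp.compMeasurePreservingₗᵢ ℂ (tz τ n) (tz_mp hτ n) h : Lp ℂ p μ) v = h (tz τ n v) := hv
    rw [h2]
  have hxn : ∀ n, ‖x n‖ ≤ B n := fun n => norm_bvec_le _ _ _ _ (hBp n).le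
  have hyn : ∀ n, ‖y n‖ ≤ B n := by
    intro n
    refine (ContinuousLinearMap.opNorm_comp_le _ _).trans ?_
    have h1 := norm_pair_le (p := p) (ρ n) (B n) (hρm n) (hρB n) (hBp n).le (μ := μ)
    have h2 := (Lp.compMeasurePreservingₗᵢ (p := p) (E := ℂ) ℂ (tz τ n) (tz_mp hτ n)).norm_toContinuousLinearMap_le
    calc _ ≤ B n * 1 := mul_le_mul h1 h2 (norm_nonneg _) (hBp n).le
      _ = B n := mul_one _
  have hTx : ∀ n, T (x n) = x (n + 1) := by
    intro n
    refine Lp.ext ?_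
    filter_upwards [hT (x n), hxc (n + 1), hτ.quasiMeasurePreserving.ae (hxc n)] with v h1 h2 h3
    rw [h1, h2, h3, ← tz_succ']
    set z := tz τ (n + 1) v with hz
    by_cases hzE : z ∈ E
    · simp only [hg, indicator_of_mem hzE]
      have h4 := coc_succ (hEw z hzE) (-(n + 1))
      have h5 : -(n + 1) + 1 = -n := by ring
      rw [h5] at h4
      have h6 : tz τ (-(n + 1)) z = v := by rw [hz, tz_neg_tz]
      rw [h6] at h4
      rw [h4, mul_inv]
      have h7 : w v ≠ 0 := by rw [← h6]; exact hEw z hzE _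
      field_simp
    · simp only [hg, indicator_of_notMem hzE, mul_zero]
  have hyT : ∀ n h, y n (T h) = y (n + 1) h := by
    intro n h
    rw [hyc, hyc]
    refine integral_congr_ae ?_
    filter_upwards [(tz_mp hτ n).quasiMeasurePreserving.ae (hT h)] with v h1
    rw [h1]
    by_cases hvE : v ∈ E
    · simp only [hρ, indicator_of_mem hvE]
      rw [coc_succ (hEw v hvE), tz_succ]; ring
    · simp only [hρ, indicator_of_notMem hvE, zero_mul]
  -- values of the pairings
  have hg0 : ∀ v, g 0 v = E.indicator (fun _ => (1 : ℂ)) v := by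
    intro v
    by_cases hv : v ∈ E
    · simp only [hg, indicator_of_mem hv, neg_zero, coc_zero, inv_one]
    · simp only [hg, indicator_of_notMem hv]
  have hρ0 : ∀ v, ρ 0 v = E.indicator (fun _ => (1 : ℂ)) v := by
    intro v
    by_cases hv : v ∈ E
    · simp only [hρ, indicator_of_mem hv, coc_zero]
    · simp only [hρ, indicator_of_notMem hv]
  have hint : ∀ (F : Ω → ℂ) (D : ℝ), (∀ v, v ∉ E → F v = 0) → (∀ v, ‖F v‖ ≤ D) →
      ‖∫ v, F v ∂μ‖ ≤ D * μ.real E := by
    intro F D h1 h2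
    have h3 : ∫ v, F v ∂μ = ∫ v in E, F v ∂μ := by
      refine (setIntegral_eq_integral_of_forall_compl_eq_zero ?_).symm
      exact fun v hv => h1 v hv
    rw [h3]
    exact norm_setIntegral_le_of_norm_le_const (measure_lt_top _ _) fun v _ => h2 v
  have v1 : ∀ n, y 0 (x n) = ∫ v, ρ 0 v * g n (tz τ n v) ∂μ := by
    intro n
    rw [hyc]
    refine integral_congr_ae ?_
    filter_upwards [hxc n] with v hv
    rw [tz_zero, hv]
  have v2 : ∀ n, y n (x 0) = ∫ v, ρ n v * g 0 (tz τ n v) ∂μ := by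
    intro n
    rw [hyc]
    refine integral_congr_ae ?_
    filter_upwards [(tz_mp hτ n).quasiMeasurePreserving.ae (hxc 0)] with v hv
    rw [hv, tz_zero]
  have v0 : y 0 (x 0) = (μ.real E : ℂ) := by
    rw [v1]
    have : ∀ v, ρ 0 v * g 0 (tz τ 0 v) = E.indicator (fun _ => (1 : ℂ)) v := by
      intro v
      rw [tz_zero, hg0, hρ0]
      by_cases hv : v ∈ E
      · simp [indicator_of_mem hv]
      · simp [indicator_of_notMem hv]
    simp_rw [this]
    rw [integral_indicator hEm]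
    simp
  have b1 : ∀ n, ‖y 0 (x n)‖ ≤ B n * μ.real E := by
    intro n
    rw [v1]
    refine hint _ _ (fun v hv => ?_) fun v => ?_
    · rw [hρ0, indicator_of_notMem hv, zero_mul]
    · rw [norm_mul, hρ0]
      by_cases hv : v ∈ E
      · rw [indicator_of_mem hv, norm_one, one_mul]; exact hgB n _
      · rw [indicator_of_notMem hv, norm_zero, zero_mul]; exact (hBp n).le
  have b2 : ∀ n, ‖y n (x 0)‖ ≤ B n * μ.real E := by
    intro n
    rw [v2]
    refine hint _ _ (fun v hv => ?_) fun v => ?_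
    · simp only [hρ, indicator_of_notMem hv, zero_mul]
    · rw [norm_mul, hg0]
      by_cases hv : tz τ n v ∈ E
      · rw [indicator_of_mem hv, norm_one, mul_one]; exact hρB n _
      · rw [indicator_of_notMem hv, norm_zero, mul_zero]; exact (hBp n).le
  have z1 : ∀ n : ℤ, n ≠ 0 → |n| ≤ N → y 0 (x n) = 0 := by
    intro n hn hnN
    rw [v1]
    have : ∀ v, ρ 0 v * g n (tz τ n v) = 0 := by
      intro v
      by_cases hv : v ∈ E
      · have := hEd v hv n hn hnN
        simp only [hg, indicator_of_notMem this, mul_zero]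
      · simp only [hρ, indicator_of_notMem hv, zero_mul]
    simp [this]
  have z2 : ∀ n : ℤ, n ≠ 0 → |n| ≤ N → y n (x 0) = 0 := by
    intro n hn hnN
    rw [v2]
    have : ∀ v, ρ n v * g 0 (tz τ n v) = 0 := by
      intro v
      by_cases hv : v ∈ E
      · have := hEd v hv n hn hnN
        simp only [hg, indicator_of_notMem this, mul_zero]
      · simp only [hρ, indicator_of_notMem hv, zero_mul]
    simp [this]
  have hm : (μ.real E : ℂ) ≠ 0 := by exact_mod_cast hμE.ne'
  -- a general non-vanishing lemma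
  have nv : ∀ (d : ℤ → ℂ) (u : ℤ → ℂ), (∀ n, ‖d n‖ = ‖a n‖) → (∀ n, ‖u n‖ ≤ B n * μ.real E) →
      u 0 = (μ.real E : ℂ) → (∀ n : ℤ, n ≠ 0 → |n| ≤ N → u n = 0) → ∑' n, d n * u n ≠ 0 := by
    intro d u hd hu hu0 huN h0
    have h1 := hN (fun n => d n * (u n / (μ.real E : ℂ))) (fun n hn => by
      rw [norm_mul, hd, norm_div, Complex.norm_real, Real.norm_of_nonneg hμE.le]
      refine mul_le_mul_of_nonneg_left ?_ (norm_nonneg _)
      rw [div_le_iff₀ hμE]
      exact hu n) (fun n hn hnN => by simp only [huN n hn hnN, zero_div, mul_zero])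
    have h2 : ∑' n, d n * (u n / (μ.real E : ℂ)) = 0 := by
      have : ∀ n, d n * (u n / (μ.real E : ℂ)) = (d n * u n) * (μ.real E : ℂ)⁻¹ := by
        intro n; rw [div_eq_mul_inv]; ring
      simp_rw [this]
      rw [tsum_mul_right, h0, zero_mul]
    rw [h2, hu0, div_self hm, mul_one, zero_sub, norm_neg, hd] at h1
    exact lt_irrefl _ h1
  have hax : Summable fun n => ‖a n‖ * ‖x n‖ :=
    Summable.of_nonneg_of_le (fun _ => by positivity)
      (fun n => mul_le_mul_of_nonneg_left (hxn n) (norm_nonneg _)) hWs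
  have hby : Summable fun n => ‖b n‖ * ‖y n‖ := by
    refine Summable.of_nonneg_of_le (fun _ => by positivity) (fun n => ?_) hWs
    rw [hbn]
    exact mul_le_mul_of_nonneg_left (hyn n) (norm_nonneg _)
  have hax' : Summable fun n => a n • x n := Summable.of_norm (by simpa [norm_smul] using hax)
  have hby' : Summable fun n => b n • y n := Summable.of_norm (by simpa [norm_smul] using hby)
  refine hyper_of_orbits x y hTx hyT a b (fun k => ?_) hax hby ?_ ?_
  · exact hconv k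
  · intro h0
    refine nv a (fun n => y 0 (x n)) (fun _ => rfl) b1 v0 z1 ?_
    have h1 := congrArg (y 0) h0
    rw [(y 0).map_tsum hax', map_zero] at h1
    rw [← h1]
    refine tsum_congr fun n => ?_
    rw [map_smul, smul_eq_mul]
  · intro h0
    refine nv b (fun n => y n (x 0)) hbn b2 v0 z2 ?_
    have h1 := congrArg (fun f : Lp ℂ p μ →L[ℂ] ℂ => f (x 0)) h0
    have h2 := (ContinuousLinearMap.apply ℂ ℂ (x 0)).map_tsum hby'
    simp only [ContinuousLinearMap.apply_apply] at h2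
    have h3 : (∑' n, b n • y n) (x 0) = 0 := by rw [h0]; rfl
    rw [← h3, h2]
    refine tsum_congr fun n => ?_
    simp

end Pool.Agent.U523.WC
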