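import Mathlib

/-!
# Two-sided orbits and hyperinvariant subspaces
-/

set_option autoImplicit false
open Filter Topology Set

namespace Pool.Agent.U523.WC

variable {X : Type} [NormedAddCommGroup X] [NormedSpace ℂ X]

/-- `T` has a closed subspace other than `0` and `X` which is invariant under all operators commuting
with `T`. -/
def HasHyper (T : X →L[ℂ] X) : Prop :=
  ∃ V : Submodule ℂ X, IsClosed (V : Set X) ∧ V ≠ ⊥ ∧ V ≠ ⊤ ∧
    ∀ S : X →L[ℂ] X, S * T = T * S → ∀ x ∈ V, S x ∈ V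

theorem hyper_of_annihilate {T : X →L[ℂ] X} {u : X} {v : X →L[ℂ] ℂ} (hu : u ≠ 0) (hv : v ≠ 0)
    (h : ∀ S : X →L[ℂ] X, S * T = T * S → v (S u) = 0) : HasHyper T := by
  let V₀ : Submodule ℂ X := Submodule.span ℂ {x | ∃ S : X →L[ℂ] X, S * T = T * S ∧ x = S u}
  refine ⟨V₀.topologicalClosure, V₀.isClosed_topologicalClosure, ?_, ?_, ?_⟩
  · intro hb
    have h1 : u ∈ V₀ := Submodule.subset_span ⟨1, by simp, by simp⟩
    have h2 := V₀.le_topologicalClosure h1
    rw [hb] at h2
    exact hu ((Submodule.mem_bot ℂ).1 h2)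
  · intro ht
    have h1 : V₀ ≤ LinearMap.ker (v : X →ₗ[ℂ] ℂ) := by
      refine Submodule.span_le.2 ?_
      rintro x ⟨S, hS, rfl⟩
      exact h S hS
    have h2 : V₀.topologicalClosure ≤ LinearMap.ker (v : X →ₗ[ℂ] ℂ) :=
      Submodule.topologicalClosure_minimal _ h1 v.isClosed_ker
    rw [ht] at h2
    apply hv
    ext x
    exact h2 (Submodule.mem_top : x ∈ (⊤ : Submodule ℂ X))
  · intro S hS x hx
    have h1 : ∀ x ∈ V₀, S x ∈ V₀ := by
      intro x hx
      induction hx using Submodule.span_induction with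
      | mem x hx =>
        obtain ⟨R, hR, rfl⟩ := hx
        refine Submodule.subset_span ⟨S * R, ?_, rfl⟩
        rw [mul_assoc, hR, ← mul_assoc, hS, mul_assoc]
      | zero => simp
      | add x y _ _ h1 h2 => rw [map_add]; exact V₀.add_mem h1 h2
      | smul c x _ h1 => rw [map_smul]; exact V₀.smul_mem c h1
    have h2 : x ∈ closure (V₀ : Set X) := hx
    have h3 : S x ∈ closure (V₀ : Set X) :=
      map_mem_closure S.continuous h2 h1
    exact h3

/-- The criterion. -/
theorem hyper_of_orbits {T : X →L[ℂ] X} [CompleteSpace X]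
    (x : ℤ → X) (y : ℤ → (X →L[ℂ] ℂ)) (hx : ∀ n, T (x n) = x (n + 1))
    (hy : ∀ n z, y n (T z) = y (n + 1) z) (a b : ℤ → ℂ)
    (hab : ∀ k : ℤ, ∑' m, a m * b (k - m) = 0)
    (ha : Summable fun n => ‖a n‖ * ‖x n‖) (hb : Summable fun n => ‖b n‖ * ‖y n‖)
    (h1 : ∑' n, a n • x n ≠ 0) (h2 : ∑' n, b n • y n ≠ 0) : HasHyper T := by
  have hax : Summable fun n => a n • x n := Summable.of_norm (by simpa [norm_smul] using ha)
  have hby : Summable fun n => b n • y n := Summable.of_norm (by simpa [norm_smul] using hb)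
  refine hyper_of_annihilate h1 h2 fun S hS => ?_
  have key : ∀ m : ℤ, ∀ n : ℤ, y m (S (x n)) = y 0 (S (x (n + m))) := by
    have step : ∀ m n : ℤ, y (m + 1) (S (x n)) = y m (S (x (n + 1))) := by
      intro m n
      have e1 : T (S (x n)) = S (T (x n)) := by
        have := congrArg (fun R : X →L[ℂ] X => R (x n)) hS
        exact this.symm
      rw [← hy, e1, hx]
    intro m
    induction m using Int.induction_on with
    | zero => intro n; simp
    | succ i ih => intro n; rw [step, ih]; congr 3; ring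
    | pred i ih =>
      intro n
      have h3 := step (-(i : ℤ) - 1) (n - 1)
      have e2 : (-(i : ℤ) - 1 + 1) = -(i : ℤ) := by ring
      have e3 : (n - 1 + 1 : ℤ) = n := by ring
      rw [e2, e3] at h3
      rw [← h3, ih]
      congr 3; ring
  have hSx : Summable fun n => a n • S (x n) := by
    have := S.summable hax
    simpa using this
  have e1 : S (∑' n, a n • x n) = ∑' n, a n • S (x n) := by
    rw [S.map_tsum hax]; simp
  have e2 : (∑' m, b m • y m) (S (∑' n, a n • x n))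
      = ∑' m, b m * y m (S (∑' n, a n • x n)) := by
    have := (ContinuousLinearMap.apply ℂ ℂ (S (∑' n, a n • x n))).map_tsum hby
    simpa using this
  rw [e2]
  have e3 : ∀ m, b m * y m (S (∑' n, a n • x n)) = ∑' n, b m * (a n * y 0 (S (x (n + m)))) := by
    intro m
    rw [e1, (y m).map_tsum hSx, ← tsum_mul_left]
    refine tsum_congr fun n => ?_
    rw [map_smul, smul_eq_mul, key]
  simp_rw [e3]
  -- absolute summability on the product
  have hsum : Summable fun q : ℤ × ℤ => b q.1 * (a q.2 * y 0 (S (x (q.2 + q.1)))) := by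
    refine Summable.of_norm_bounded (g := fun q : ℤ × ℤ =>
      (‖b q.1‖ * ‖y q.1‖) * ((‖a q.2‖ * ‖x q.2‖) * ‖S‖)) ?_ ?_
    · exact Summable.mul_of_nonneg hb (ha.mul_right ‖S‖) (fun _ => by positivity)
        (fun _ => by positivity)
    · rintro ⟨m, n⟩
      simp only [norm_mul]
      rw [← key]
      have h3 : ‖y m (S (x n))‖ ≤ ‖y m‖ * (‖S‖ * ‖x n‖) :=
        ((y m).le_opNorm _).trans (mul_le_mul_of_nonneg_left (S.le_opNorm _) (norm_nonneg _))
      calc ‖b m‖ * (‖a n‖ * ‖y m (S (x n))‖)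
          ≤ ‖b m‖ * (‖a n‖ * (‖y m‖ * (‖S‖ * ‖x n‖))) := by gcongr
        _ = _ := by ring
  have hre : Summable fun q : ℤ × ℤ => b (q.1 - q.2) * (a q.2 * y 0 (S (x q.1))) := by
    have := (Equiv.summable_iff (⟨fun q => (q.1 - q.2, q.2), fun q => (q.1 + q.2, q.2),
      fun q => by simp, fun q => by simp⟩ : ℤ × ℤ ≃ ℤ × ℤ)).2 hsum
    refine this.congr fun q => ?_
    simp only [Function.comp, Equiv.coe_fn_mk]
    congr 4; congr 1; ring
  have e4 : ∑' m, ∑' n, b m * (a n * y 0 (S (x (n + m))))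
      = ∑' q : ℤ × ℤ, b q.1 * (a q.2 * y 0 (S (x (q.2 + q.1)))) :=
    (hsum.tsum_prod' fun m => hsum.comp_injective (Prod.mk_right_injective m)).symm
  have e5 : ∑' q : ℤ × ℤ, b q.1 * (a q.2 * y 0 (S (x (q.2 + q.1))))
      = ∑' q : ℤ × ℤ, b (q.1 - q.2) * (a q.2 * y 0 (S (x q.1))) := by
    rw [← (Equiv.tsum_eq (⟨fun q => (q.1 - q.2, q.2), fun q => (q.1 + q.2, q.2),
      fun q => by simp, fun q => by simp⟩ : ℤ × ℤ ≃ ℤ × ℤ))]
    refine tsum_congr fun q => ?_
    simp only [Equiv.coe_fn_mk]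
    congr 4; congr 1; ring
  rw [e4, e5, hre.tsum_prod' fun m => hre.comp_injective (Prod.mk_right_injective m)]
  have e6 : ∀ k : ℤ, ∑' m, b (k - m) * (a m * y 0 (S (x k))) = 0 := by
    intro k
    have : ∀ m, b (k - m) * (a m * y 0 (S (x k))) = (a m * b (k - m)) * y 0 (S (x k)) := by
      intro m; ring
    simp_rw [this]
    rw [tsum_mul_right, hab k, zero_mul]
  simp_rw [e6]
  simp

end Pool.Agent.U523.WC
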