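import Pool.Agent.U523.WC.Zero2

/-!
# Decay of the coefficients
-/

set_option autoImplicit false
open MeasureTheory Filter Topology Complex Set

namespace Pool.Agent.U523.WC

/-- The zero divisor with coefficients `O (exp (-c (1 + |n|) ^ s))`. -/
theorem exists_divisor (s : ℝ) (hs0 : 0 < s) (hs1 : s < 1) :
    ∃ (a : ℤ → ℂ) (c C : ℝ), 0 < c ∧ a 0 ≠ 0 ∧ (∀ n, ‖a n‖ ≤ C * Real.exp (-(c * (1 + |(n : ℝ)|) ^ s))) ∧
      ∀ k : ℤ, ∑' m, a m * (e (k - m) (1 / 2) * a (k - m)) = 0 := by
  have hsum : Summable fun k : ℕ => 1 / ((k : ℝ) + 1) ^ (1 / s) := by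
    have h1 : Summable fun k : ℕ => 1 / (k : ℝ) ^ (1 / s) :=
      Real.summable_one_div_nat_rpow.2 (by rw [lt_div_iff₀ hs0]; linarith)
    have h2 := (summable_nat_add_iff 1).2 h1
    simpa using h2
  set Z : ℝ := ∑' k : ℕ, 1 / ((k : ℝ) + 1) ^ (1 / s) with hZ
  have hZ0 : 0 ≤ Z := tsum_nonneg fun k => by positivity
  set c₀ : ℝ := 1 / (4 * (Z + 1)) with hc₀
  have hc₀p : 0 < c₀ := by positivity
  set r : ℕ → ℝ := fun k => c₀ * (1 / ((k : ℝ) + 1) ^ (1 / s)) with hr
  have hrp : ∀ k, 0 < r k := fun k => by simp only [hr]; positivity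
  have hrs : ∀ K, ∑ k ∈ Finset.range K, r k ≤ 1 / 4 := by
    intro K
    have h1 : ∑ k ∈ Finset.range K, r k ≤ c₀ * Z := by
      simp only [hr]
      rw [← Finset.mul_sum]
      exact mul_le_mul_of_nonneg_left (hsum.sum_le_tsum _ fun k _ => by positivity) hc₀p.le
    have h2 : c₀ * Z ≤ 1 / 4 := by
      rw [hc₀, div_mul_eq_mul_div, div_le_div_iff₀ (by positivity) (by norm_num)]
      linarith
    exact h1.trans h2
  obtain ⟨p, hp0, hpV, hpB⟩ := exists_limit hrp hrs
  set c₁ : ℝ := Real.pi * c₀ / Real.exp 1 with hc₁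
  have hc₁p : 0 < c₁ := by have := Real.pi_pos; positivity
  -- the bound of p
  have hpn : ∀ n : ℤ, n ≠ 0 → ‖p n‖ ≤ Real.exp 1 * Real.exp (-((c₁ * |(n : ℝ)|) ^ s)) := by
    intro n hn
    have hn' : 0 < |(n : ℝ)| := abs_pos.2 (by exact_mod_cast hn)
    set y : ℝ := (c₁ * |(n : ℝ)|) ^ s with hy
    have hy0 : 0 ≤ y := by positivity
    refine hpB n _ ⌊y⌋₊ fun K hK => ?_
    have h1 : ∀ k ∈ Finset.range ⌊y⌋₊, ‖mult (r k) n‖ ≤ Real.exp (-1) := by
      intro k hk
      have hk' : (k : ℝ) + 1 ≤ y := by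
        have h2 : k + 1 ≤ ⌊y⌋₊ := Finset.mem_range.1 hk
        have h3 : ((k + 1 : ℕ) : ℝ) ≤ y := (Nat.le_floor_iff hy0).1 h2
        push_cast at h3; exact h3
      refine (norm_mult_le' _ (hrp k) n hn).trans ?_
      have h4 : ((k : ℝ) + 1) ^ (1 / s) ≤ c₁ * |(n : ℝ)| := by
        have h5 := Real.rpow_le_rpow (by positivity) hk' (by positivity : 0 ≤ 1 / s)
        rw [hy, ← Real.rpow_mul (by positivity), mul_one_div_cancel hs0.ne', Real.rpow_one] at h5
        exact h5
      have h6 : 0 < ((k : ℝ) + 1) ^ (1 / s) := by positivity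
      have h7 : Real.pi * |(n : ℝ)| * r k
          = Real.exp 1 * (c₁ * |(n : ℝ)|) / ((k : ℝ) + 1) ^ (1 / s) := by
        simp only [hr, hc₁]
        field_simp
      rw [h7, one_div_div, Real.exp_neg, div_le_iff₀ (by positivity)]
      have h8 : (Real.exp 1)⁻¹ * (Real.exp 1 * (c₁ * |(n : ℝ)|)) = c₁ * |(n : ℝ)| := by
        field_simp
      rw [h8]; exact h4
    have h2 : ‖prodM r K n‖ ≤ ‖prodM r ⌊y⌋₊ n‖ := by
      rw [prodM, prodM, ← Finset.prod_range_mul_prod_Ico _ hK, norm_mul]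
      refine mul_le_of_le_one_right (norm_nonneg _) ?_
      rw [norm_prod]
      exact Finset.prod_le_one (fun _ _ => norm_nonneg _) fun k _ => norm_mult_le _ (hrp k) n
    refine h2.trans ?_
    rw [prodM, norm_prod]
    refine (Finset.prod_le_prod (fun _ _ => norm_nonneg _) h1).trans ?_
    rw [Finset.prod_const, Finset.card_range, ← Real.exp_nat_mul, ← Real.exp_add]
    refine Real.exp_le_exp.2 ?_
    have h3 := Nat.lt_floor_add_one y
    nlinarith
  set c : ℝ := (c₁ / 2) ^ s with hc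
  have hcp : 0 < c := by positivity
  have hbase : ∀ n, ‖base n‖ ≤ 4 := by
    intro n
    rw [base]
    split_ifs with hn
    · rw [norm_neg, Complex.norm_real, Real.norm_of_nonneg (by positivity)]
      have := Real.pi_lt_four
      have := Real.pi_pos
      nlinarith
    · rw [norm_div, norm_pow, norm_pow]
      have h3 : ‖e n (1 / 8) - 1‖ ≤ 2 := by
        refine (norm_sub_le _ _).trans ?_
        rw [norm_e, norm_one]; norm_num
      have h4 : (1 : ℝ) ≤ ‖(n : ℂ)‖ := by
        rw [Complex.norm_intCast]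
        exact_mod_cast Int.one_le_abs hn
      have h5 : ‖e n (1 / 8) - 1‖ ^ 2 ≤ 4 := by nlinarith [norm_nonneg (e n (1 / 8) - 1)]
      rw [div_le_iff₀ (by positivity)]
      nlinarith
  refine ⟨fun n => p n * base n, c, 4 * Real.exp 1 * Real.exp c, hcp, ?_, ?_, conv_zero hpV⟩
  · simp only [hp0, one_mul, base, if_true]
    have := Real.pi_pos
    have h1 : (Real.pi ^ 2 / 16 : ℝ) ≠ 0 := by positivity
    exact neg_ne_zero.2 (by exact_mod_cast h1)
  · intro n
    rw [norm_mul]
    by_cases hn : n = 0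
    · subst hn
      rw [hp0, norm_one, one_mul]
      simp only [Int.cast_zero, abs_zero, add_zero, Real.one_rpow, mul_one]
      have e1 : 4 * Real.exp 1 * Real.exp c * Real.exp (-c) = 4 * Real.exp 1 := by
        rw [mul_assoc, ← Real.exp_add]; simp
      rw [e1]
      have := Real.add_one_le_exp (1 : ℝ)
      linarith [hbase 0]
    · have hn' : (1 : ℝ) ≤ |(n : ℝ)| := by exact_mod_cast Int.one_le_abs hn
      have h1 : c * (1 + |(n : ℝ)|) ^ s ≤ (c₁ * |(n : ℝ)|) ^ s := by
        rw [hc, ← Real.mul_rpow (by positivity) (by positivity)]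
        refine Real.rpow_le_rpow (by positivity) ?_ hs0.le
        nlinarith
      have h2 : ‖p n‖ ≤ Real.exp 1 * Real.exp (-(c * (1 + |(n : ℝ)|) ^ s)) := by
        refine (hpn n hn).trans ?_
        gcongr
      calc ‖p n‖ * ‖base n‖ ≤ (Real.exp 1 * Real.exp (-(c * (1 + |(n : ℝ)|) ^ s))) * 4 := by
            gcongr; exact hbase n
        _ ≤ (Real.exp 1 * Real.exp (-(c * (1 + |(n : ℝ)|) ^ s))) * (4 * Real.exp c) := by
            gcongr
            have := Real.add_one_le_exp c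
            nlinarith
        _ = _ := by ring

/-- Beurling weights of smaller order. -/
theorem summable_weight {s t c R : ℝ} (ht0 : 0 ≤ t) (hts : t < s) (hc : 0 < c) :
    Summable fun n : ℤ => Real.exp (-(c * (1 + |(n : ℝ)|) ^ s)) * Real.exp (R * (1 + |(n : ℝ)|) ^ t) := by
  have hs0 : 0 < s := lt_of_le_of_lt ht0 hts
  -- for real arguments
  have h1 : ∀ᶠ x : ℝ in atTop, R * x ^ t ≤ c / 4 * x ^ s := by
    have h2 : Tendsto (fun x : ℝ => R * x ^ (-(s - t))) atTop (𝓝 (R * 0)) :=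
      (tendsto_rpow_neg_atTop (sub_pos.2 hts)).const_mul R
    rw [mul_zero] at h2
    filter_upwards [h2.eventually_le_const (by positivity : (0 : ℝ) < c / 4), eventually_gt_atTop 0]
      with x hx hx0
    have h3 : R * x ^ t = (R * x ^ (-(s - t))) * x ^ s := by
      rw [mul_assoc, ← Real.rpow_add hx0]; congr 2; ring
    rw [h3]
    exact mul_le_mul_of_nonneg_right hx (by positivity)
  have h4 : ∀ᶠ x : ℝ in atTop, 2 * Real.log x ≤ c / 4 * x ^ s := by
    have h2 : (fun x : ℝ => 2 * Real.log x) =o[atTop] fun x : ℝ => x ^ s :=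
      (isLittleO_log_rpow_atTop hs0).const_mul_left 2
    have h3 := h2.def (by positivity : 0 < c / 4)
    filter_upwards [h3, eventually_ge_atTop 0] with x hx hx0
    rw [Real.norm_of_nonneg (by positivity : 0 ≤ x ^ s)] at hx
    exact (le_abs_self _).trans hx
  have h5 : ∀ᶠ x : ℝ in atTop, Real.exp (-(c * x ^ s)) * Real.exp (R * x ^ t) ≤ 1 / x ^ 2 := by
    filter_upwards [h1, h4, eventually_gt_atTop 0] with x hx hx2 hx0
    rw [← Real.exp_add, one_div, ← Real.exp_log (pow_pos hx0 2), ← Real.exp_neg, Real.log_pow]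
    refine Real.exp_le_exp.2 ?_
    have : 0 ≤ x ^ s := by positivity
    push_cast
    nlinarith
  have hnat : Summable fun n : ℕ => Real.exp (-(c * (1 + (n : ℝ)) ^ s)) * Real.exp (R * (1 + (n : ℝ)) ^ t) := by
    have h6 : Summable fun n : ℕ => 1 / (1 + (n : ℝ)) ^ 2 := by
      have h7 := (summable_nat_add_iff 1).2 (Real.summable_one_div_nat_pow.2 (by norm_num : 1 < 2))
      refine h7.congr fun n => ?_
      push_cast; ring_nf
    refine Summable.of_norm_bounded_eventually_nat h6 ?_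
    have h8 : Tendsto (fun n : ℕ => 1 + (n : ℝ)) atTop atTop :=
      tendsto_atTop_add_const_left _ _ tendsto_natCast_atTop_atTop
    filter_upwards [h8.eventually h5] with n hn
    rw [Real.norm_of_nonneg (by positivity)]
    exact hn
  refine Summable.of_nat_of_neg ?_ ?_
  · refine hnat.congr fun n => ?_
    simp
  · refine hnat.congr fun n => ?_
    simp

end Pool.Agent.U523.WC
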