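import Pool.Agent.U523.WC.Ltwo

/-!
# The theorem for mean squares
-/

set_option autoImplicit false
open MeasureTheory Filter Topology Set

namespace Pool.Agent.U523.WC

variable {Ω : Type} [MeasurableSpace Ω] {μ : Measure Ω} [IsProbabilityMeasure μ] {p : ENNReal}
  [Fact (1 ≤ p)]

theorem ae_small {τ : Ω ≃ᵐ Ω} (hτ : MeasurePreserving τ μ μ) {f : Ω → ℝ} (hf : Measurable f)
    (hL : MemLp f 2 μ) {C δ : ℝ} {m : ℕ} (hm : 1 ≤ ((m + 1 : ℕ) : ℝ) * δ)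
    (hS : ∀ n : ℕ, 1 ≤ n → ∫ v, (∑ k ∈ Finset.range n, f (tz τ k v)) ^ 2 ∂μ
      ≤ C * (n : ℝ) ^ (2 - 2 * δ)) :
    ∀ᵐ v ∂μ, SmallSums τ f (1 - 1 / (4 * ((m + 1 : ℕ) : ℝ))) v := by
  have hS' : ∀ n : ℕ, 1 ≤ n → ∫⁻ v, ENNReal.ofReal ((∑ k ∈ Finset.range n, f (tz τ k v)) ^ 2) ∂μ
      ≤ ENNReal.ofReal (max C 0 * (n : ℝ) ^ (2 - 2 * δ)) := by
    intro n hn
    have h1 : MemLp (fun v => ∑ k ∈ Finset.range n, f (tz τ k v)) 2 μ :=
      memLp_finsetSum _ fun k _ => hL.comp_measurePreserving (tz_mp hτ k)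
    rw [← ofReal_integral_eq_lintegral_ofReal h1.integrable_sq (ae_of_all _ fun v => sq_nonneg _)]
    refine ENNReal.ofReal_le_ofReal ((hS n hn).trans ?_)
    gcongr
    exact le_max_left _ _
  have hD : ∀ n : ℤ, ∫⁻ v, ENNReal.ofReal (f (tz τ n v) ^ 2) ∂μ ≤ ENNReal.ofReal (∫ v, f v ^ 2 ∂μ) := by
    intro n
    rw [ofReal_integral_eq_lintegral_ofReal hL.integrable_sq (ae_of_all _ fun v => sq_nonneg _)]
    exact ((tz_mp hτ n).lintegral_comp (hf.pow_const 2).ennreal_ofReal).le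
  have hD0 : 0 ≤ ∫ v, f v ^ 2 ∂μ := integral_nonneg fun v => sq_nonneg _
  have hback : ∀ (n : ℕ) (v : Ω), ∑ k ∈ Finset.range n, f (tz τ (-((k : ℤ) + 1)) v)
      = ∑ k ∈ Finset.range n, f (tz τ k (tz τ (-(n : ℤ)) v)) := by
    intro n v
    rw [← Finset.sum_range_reflect (fun k => f (tz τ (k : ℕ) (tz τ (-(n : ℤ)) v))) n]
    refine Finset.sum_congr rfl fun k hk => ?_
    have hk' := Finset.mem_range.1 hk
    rw [← tz_add]
    congr 2
    omega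
  have b1 := ae_bound (u := fun k v => f (tz τ (k : ℕ) v))
    (fun k => hf.comp (tz_mp hτ k).measurable) hD0 (le_max_right C 0) hm (fun k => hD k) hS'
  have b2 := ae_bound (u := fun (k : ℕ) v => f (tz τ (-((k : ℤ) + 1)) v))
    (fun k => hf.comp (tz_mp hτ _).measurable) hD0 (le_max_right C 0) hm (fun k => hD _) (by
      intro n hn
      have h1 : (fun v => ENNReal.ofReal ((∑ k ∈ Finset.range n, f (tz τ (-((k : ℤ) + 1)) v)) ^ 2))
          = fun v => (fun v' => ENNReal.ofReal ((∑ k ∈ Finset.range n, f (tz τ k v')) ^ 2))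
            (tz τ (-(n : ℤ)) v) := by
        funext v
        simp only [hback n v]
      have hG : Measurable fun v' => ENNReal.ofReal ((∑ k ∈ Finset.range n, f (tz τ k v')) ^ 2) :=
        ((Finset.measurable_sum _ fun (k : ℕ) _ =>
          hf.comp (tz_mp hτ (k : ℤ)).measurable).pow_const 2).ennreal_ofReal
      have h2 := (tz_mp hτ (-(n : ℤ))).lintegral_comp hG
      rw [h1]
      exact h2.le.trans (hS' n hn))
  filter_upwards [b1, b2] with v h1 h2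
  obtain ⟨R₁, h1⟩ := h1
  obtain ⟨R₂, h2⟩ := h2
  refine ⟨max R₁ R₂, fun n => ⟨(h1 n).trans ?_, (h2 n).trans ?_⟩⟩
  · gcongr
    exact le_max_left _ _
  · gcongr
    exact le_max_right _ _

theorem global_theorem [MeasurableSpace.CountablySeparated Ω] {τ : Ω ≃ᵐ Ω}
    (hτ : MeasurePreserving τ μ μ) (hper : ∀ n : ℕ, 1 ≤ n → μ {v | tz τ n v = v} = 0)
    {w : Ω → ℂ} (hw : Measurable w) (hw0 : ∀ᵐ v ∂μ, w v ≠ 0) (T : Lp ℂ p μ →L[ℂ] Lp ℂ p μ)
    (hT : ∀ f : Lp ℂ p μ, (T f : Ω → ℂ) =ᵐ[μ] fun v => w v * f (τ v))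
    (hL : MemLp (fun v => Real.log ‖w v‖) 2 μ) {l C δ : ℝ} (hδ : 0 < δ)
    (hS : ∀ n : ℕ, 1 ≤ n → ∫ v, (∑ k ∈ Finset.range n, (Real.log ‖w (tz τ k v)‖ - l)) ^ 2 ∂μ
      ≤ C * (n : ℝ) ^ (2 - 2 * δ)) : HasHyper T := by
  obtain ⟨m, hm⟩ := exists_nat_gt (1 / δ)
  have hm' : 1 ≤ ((m + 1 : ℕ) : ℝ) * δ := by
    rw [div_lt_iff₀ hδ] at hm
    push_cast
    nlinarith
  have hfm : Measurable fun v => Real.log ‖w v‖ - l := (hw.norm.log).sub_const l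
  have hfL : MemLp (fun v => Real.log ‖w v‖ - l) 2 μ := hL.sub (memLp_const l)
  have h1 := ae_small hτ hfm hfL hm' hS
  have h2 : ∀ᵐ v ∂μ, ∀ k : ℤ, w (tz τ k v) ≠ 0 := by
    rw [ae_all_iff]
    exact fun k => (tz_mp hτ k).quasiMeasurePreserving.ae hw0
  have hpos : 0 < ((m + 1 : ℕ) : ℝ) := by positivity
  have h1m : (1 : ℝ) ≤ ((m + 1 : ℕ) : ℝ) := by push_cast; linarith [(Nat.cast_nonneg m : (0 : ℝ) ≤ m)]
  refine local_theorem (t := 1 - 1 / (4 * ((m + 1 : ℕ) : ℝ))) (l := l) hτ hw T hT ?_ ?_ ?_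
  · have : 1 / (4 * ((m + 1 : ℕ) : ℝ)) ≤ 1 := by rw [div_le_one (by positivity)]; linarith
    linarith
  · have : 0 < 1 / (4 * ((m + 1 : ℕ) : ℝ)) := by positivity
    linarith
  · intro h0
    have h3 := measure_eq_zero_iff_ae_notMem.1 h0
    have h4 : ∀ᵐ v ∂μ, ∀ n : ℕ, 1 ≤ n → tz τ n v ≠ v := by
      rw [ae_all_iff]
      intro n
      by_cases hn : 1 ≤ n
      · filter_upwards [measure_eq_zero_iff_ae_notMem.1 (hper n hn)] with v hv _
        exact hv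
      · exact ae_of_all _ fun v h => absurd h hn
    obtain ⟨v, hv1, hv2, hv3, hv4⟩ := (h1.and (h2.and (h3.and h4))).exists
    exact hv3 ⟨hv4, hv2, hv1⟩

end Pool.Agent.U523.WC
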