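import Pool.Agent.U523.WC.Core

/-!
# The local theorem
-/

set_option autoImplicit false
open MeasureTheory Filter Topology Set

namespace Pool.Agent.U523.WC

/-- The two-sided Birkhoff sums of `f` at `v` are `O (n ^ t)`. -/
def SmallSums {Ω : Type} [MeasurableSpace Ω] (τ : Ω ≃ᵐ Ω) (f : Ω → ℝ) (t : ℝ) (v : Ω) : Prop :=
  ∃ R : ℝ, ∀ n : ℕ, |∑ k ∈ Finset.range n, f (tz τ k v)| ≤ R * (1 + (n : ℝ)) ^ t ∧
    |∑ k ∈ Finset.range n, f (tz τ (-((k : ℤ) + 1)) v)| ≤ R * (1 + (n : ℝ)) ^ t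

variable {Ω : Type} [MeasurableSpace Ω] {μ : Measure Ω} [IsProbabilityMeasure μ] {p : ENNReal}
  [Fact (1 ≤ p)]

theorem shrink [MeasurableSpace.CountablySeparated Ω] {τ : Ω ≃ᵐ Ω} (hτ : MeasurePreserving τ μ μ)
    {E₀ : Set Ω} (hper : ∀ v ∈ E₀, ∀ n : ℕ, 1 ≤ n → tz τ n v ≠ v) (hE₀ : MeasurableSet E₀)
    (h0 : μ E₀ ≠ 0) (N : ℕ) :
    ∃ E ⊆ E₀, MeasurableSet E ∧ μ E ≠ 0 ∧ ∀ v ∈ E, ∀ n : ℤ, n ≠ 0 → |n| ≤ N → tz τ n v ∉ E := by
  suffices h : ∃ E ⊆ E₀, MeasurableSet E ∧ μ E ≠ 0 ∧ ∀ v ∈ E, ∀ n : ℕ, 1 ≤ n → n ≤ N → tz τ n v ∉ E by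
    obtain ⟨E, h1, h2, h3, h4⟩ := h
    refine ⟨E, h1, h2, h3, fun v hv n hn hnN hE => ?_⟩
    rcases lt_or_gt_of_ne hn with hneg | hpos
    · have h5 := h4 (tz τ n v) hE n.natAbs (by omega) (by
        rw [Int.abs_eq_natAbs] at hnN; exact_mod_cast hnN)
      have h6 : ((n.natAbs : ℕ) : ℤ) = -n := by omega
      rw [h6, tz_neg_tz] at h5
      exact h5 hv
    · have h5 := h4 v hv n.natAbs (by omega) (by
        rw [Int.abs_eq_natAbs] at hnN; exact_mod_cast hnN)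
      have h6 : ((n.natAbs : ℕ) : ℤ) = n := by omega
      rw [h6] at h5
      exact h5 hE
  obtain ⟨S, hSm, hS⟩ := exists_seq_separating Ω MeasurableSet.empty Set.univ
  induction N with
  | zero => exact ⟨E₀, subset_rfl, hE₀, h0, fun v _ n h1 h2 => by omega⟩
  | succ N ih =>
    obtain ⟨E, h1, h2, h3, h4⟩ := ih
    set n : ℕ := N + 1 with hn
    have hm := (tz_mp hτ (n : ℤ)).measurable
    set A : ℕ → Set Ω := fun k => E ∩ S k ∩ (tz τ n ⁻¹' (S k)ᶜ) with hA
    set A' : ℕ → Set Ω := fun k => E ∩ (S k)ᶜ ∩ (tz τ n ⁻¹' (S k)) with hA'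
    have hAm : ∀ k, MeasurableSet (A k) := fun k => (h2.inter (hSm k)).inter (hm (hSm k).compl)
    have hA'm : ∀ k, MeasurableSet (A' k) := fun k => (h2.inter (hSm k).compl).inter (hm (hSm k))
    have hex : ∃ k, μ (A k) ≠ 0 ∨ μ (A' k) ≠ 0 := by
      by_contra hcon
      push Not at hcon
      apply h3
      have h5 : E ⊆ (⋃ k, A k) ∪ ⋃ k, A' k := by
        intro v hv
        by_contra hno
        apply hper v (h1 hv) n (by omega)
        refine hS _ (mem_univ _) _ (mem_univ _) fun k => ?_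
        simp only [mem_union, mem_iUnion, not_or, not_exists] at hno
        constructor
        · intro h6
          by_contra h7
          exact hno.2 k ⟨⟨hv, h7⟩, h6⟩
        · intro h6
          by_contra h7
          exact hno.1 k ⟨⟨hv, h6⟩, h7⟩
      refine measure_mono_null h5 ?_
      rw [measure_union_null_iff, measure_iUnion_null_iff, measure_iUnion_null_iff]
      exact ⟨fun k => (hcon k).1, fun k => (hcon k).2⟩
    obtain ⟨k, hk⟩ := hex
    rcases hk with hk | hk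
    · refine ⟨A k, fun v hv => h1 hv.1.1, hAm k, hk, fun v hv j hj1 hj2 hE => ?_⟩
      rcases Nat.lt_or_ge j n with hj | hj
      · exact h4 v hv.1.1 j hj1 (by omega) hE.1.1
      · have hjn : j = n := by omega
        subst hjn
        exact hv.2 hE.1.2
    · refine ⟨A' k, fun v hv => h1 hv.1.1, hA'm k, hk, fun v hv j hj1 hj2 hE => ?_⟩
      rcases Nat.lt_or_ge j n with hj | hj
      · exact h4 v hv.1.1 j hj1 (by omega) hE.1.1
      · have hjn : j = n := by omega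
        subst hjn
        exact hE.1.2 hv.2

theorem meas_aper [MeasurableSpace.CountablySeparated Ω] {τ : Ω ≃ᵐ Ω}
    (hτ : MeasurePreserving τ μ μ) : MeasurableSet {v | ∀ n : ℕ, 1 ≤ n → tz τ n v ≠ v} := by
  obtain ⟨S, hSm, hS⟩ := exists_seq_separating Ω MeasurableSet.empty Set.univ
  have h1 : {v | ∀ n : ℕ, 1 ≤ n → tz τ n v ≠ v}
      = ⋂ n : ℕ, ⋃ k : ℕ, (if 1 ≤ n then (S k ∩ (tz τ n ⁻¹' (S k)ᶜ)) ∪ ((S k)ᶜ ∩ (tz τ n ⁻¹' (S k)))
        else Set.univ) := by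
    ext v
    simp only [mem_iInter, mem_iUnion]
    constructor
    · intro h n
      by_cases hn : 1 ≤ n
      · by_contra hno
        push Not at hno
        apply h n hn
        refine hS _ (mem_univ _) _ (mem_univ _) fun k => ?_
        have h2 := hno k
        rw [if_pos hn] at h2
        constructor
        · intro h6
          by_contra h7
          exact h2 (Or.inr ⟨h7, h6⟩)
        · intro h6
          by_contra h7
          exact h2 (Or.inl ⟨h6, h7⟩)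
      · exact ⟨0, by rw [if_neg hn]; exact mem_univ _⟩
    · intro h n hn he
      obtain ⟨k, hk⟩ := h n
      rw [if_pos hn] at hk
      rcases hk with ⟨h2, h3⟩ | ⟨h2, h3⟩
      · apply h3
        rw [he]; exact h2
      · apply h2
        have h4 : tz τ n v ∈ S k := h3
        rw [he] at h4
        exact h4
  rw [h1]
  refine MeasurableSet.iInter fun n => MeasurableSet.iUnion fun k => ?_
  have hm := (tz_mp hτ (n : ℤ)).measurable
  split_ifs
  · exact ((hSm k).inter (hm (hSm k).compl)).union ((hSm k).compl.inter (hm (hSm k)))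
  · exact MeasurableSet.univ

theorem norm_coc_nat {τ : Ω ≃ᵐ Ω} {w : Ω → ℂ} {v : Ω} (hv : ∀ k : ℤ, w (tz τ k v) ≠ 0) (n : ℕ) :
    ‖coc τ w n v‖ = Real.exp (∑ k ∈ Finset.range n, Real.log ‖w (tz τ k v)‖) := by
  show ‖∏ k ∈ Finset.range n, w (tz τ k v)‖ = _
  rw [norm_prod, Real.exp_sum]
  exact Finset.prod_congr rfl fun k _ => (Real.exp_log (norm_pos_iff.2 (hv _))).symm

theorem norm_coc_neg {τ : Ω ≃ᵐ Ω} {w : Ω → ℂ} {v : Ω} (hv : ∀ k : ℤ, w (tz τ k v) ≠ 0) (n : ℕ) :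
    ‖coc τ w (-(n : ℤ)) v‖
      = Real.exp (-∑ k ∈ Finset.range n, Real.log ‖w (tz τ (-((k : ℤ) + 1)) v)‖) := by
  cases n with
  | zero => simp [coc_zero]
  | succ n =>
    have h1 : (-((n + 1 : ℕ) : ℤ)) = Int.negSucc n := rfl
    rw [h1]
    show ‖(∏ k ∈ Finset.range (n + 1), w (tz τ (-((k : ℤ) + 1)) v))⁻¹‖ = _
    rw [norm_inv, norm_prod, Real.exp_neg, Real.exp_sum]
    congr 1
    exact Finset.prod_congr rfl fun k _ => (Real.exp_log (norm_pos_iff.2 (hv _))).symm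

theorem local_theorem [MeasurableSpace.CountablySeparated Ω] {τ : Ω ≃ᵐ Ω}
    (hτ : MeasurePreserving τ μ μ)
    {w : Ω → ℂ} (hw : Measurable w) (T : Lp ℂ p μ →L[ℂ] Lp ℂ p μ)
    (hT : ∀ f : Lp ℂ p μ, (T f : Ω → ℂ) =ᵐ[μ] fun v => w v * f (τ v))
    {t l : ℝ} (ht0 : 0 ≤ t) (ht1 : t < 1)
    (hG : μ {v | (∀ n : ℕ, 1 ≤ n → tz τ n v ≠ v) ∧ (∀ k : ℤ, w (tz τ k v) ≠ 0) ∧
      SmallSums τ (fun v => Real.log ‖w v‖ - l) t v} ≠ 0) :
    HasHyper T := by
  set f : Ω → ℝ := fun v => Real.log ‖w v‖ - l with hf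
  have hfm : Measurable f := (hw.norm.log).sub_const l
  -- measurable sets with uniform constants
  set G : ℕ → Set Ω := fun R => {v | (∀ n : ℕ, 1 ≤ n → tz τ n v ≠ v) ∧ (∀ k : ℤ, w (tz τ k v) ≠ 0) ∧
    ∀ n : ℕ, |∑ k ∈ Finset.range n, f (tz τ k v)| ≤ R * (1 + (n : ℝ)) ^ t ∧
      |∑ k ∈ Finset.range n, f (tz τ (-((k : ℤ) + 1)) v)| ≤ R * (1 + (n : ℝ)) ^ t} with hGd
  have hGm : ∀ R, MeasurableSet (G R) := by
    intro R
    have h1 : MeasurableSet {v | ∀ k : ℤ, w (tz τ k v) ≠ 0} := by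
      rw [ofPred_forall]
      exact MeasurableSet.iInter fun k =>
        ((hw.comp (tz_mp hτ k).measurable) (measurableSet_singleton 0)).compl
    have h2 : MeasurableSet {v | ∀ n : ℕ, |∑ k ∈ Finset.range n, f (tz τ k v)| ≤ R * (1 + (n : ℝ)) ^ t ∧
      |∑ k ∈ Finset.range n, f (tz τ (-((k : ℤ) + 1)) v)| ≤ R * (1 + (n : ℝ)) ^ t} := by
      rw [ofPred_forall]
      refine MeasurableSet.iInter fun n => ?_
      have m1 : Measurable fun v => ‖∑ k ∈ Finset.range n, f (tz τ k v)‖ :=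
        (Finset.measurable_sum _ fun (k : ℕ) _ => hfm.comp (tz_mp hτ (k : ℤ)).measurable).norm
      have m2 : Measurable fun v => ‖∑ k ∈ Finset.range n, f (tz τ (-((k : ℤ) + 1)) v)‖ :=
        (Finset.measurable_sum _ fun (k : ℕ) _ =>
          hfm.comp (tz_mp hτ (-((k : ℤ) + 1))).measurable).norm
      exact (measurableSet_le m1 measurable_const).inter (measurableSet_le m2 measurable_const)
    exact (meas_aper hτ).inter (h1.inter h2)
  have hGex : ∃ R, μ (G R) ≠ 0 := by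
    by_contra hcon
    push Not at hcon
    apply hG
    refine measure_mono_null (t := ⋃ R, G R) ?_ (measure_iUnion_null_iff.2 hcon)
    rintro v ⟨h0, h1, R, hR⟩
    obtain ⟨K, hK⟩ := exists_nat_ge R
    refine mem_iUnion.2 ⟨K, h0, h1, fun n => ?_⟩
    have h2 : R * (1 + (n : ℝ)) ^ t ≤ K * (1 + (n : ℝ)) ^ t := by gcongr
    exact ⟨(hR n).1.trans h2, (hR n).2.trans h2⟩
  obtain ⟨R, hR⟩ := hGex
  -- normalisation
  set w' : Ω → ℂ := fun v => (Real.exp (-l) : ℂ) * w v with hw'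
  have hex : (Real.exp (-l) : ℂ) ≠ 0 := by exact_mod_cast (Real.exp_pos _).ne'
  have hw'm : Measurable w' := hw.const_mul _
  have hlog : ∀ v, w v ≠ 0 → Real.log ‖w' v‖ = f v := by
    intro v hv
    simp only [hw', hf]
    rw [norm_mul, Complex.norm_real, Real.norm_of_nonneg (Real.exp_pos _).le,
      Real.log_mul (Real.exp_pos _).ne' (norm_ne_zero_iff.2 hv), Real.log_exp]
    ring
  have key : HasHyper ((Real.exp (-l) : ℂ) • T) := by
    refine core (θ := t) (R := R) hτ hw'm _ (fun h => ?_) ht0 ht1 fun N => ?_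
    · filter_upwards [Lp.coeFn_smul (Real.exp (-l) : ℂ) (T h), hT h] with v h1 h2
      have h3 : ((Real.exp (-l) : ℂ) • T) h = (Real.exp (-l) : ℂ) • T h := rfl
      rw [h3, h1, Pi.smul_apply, h2, smul_eq_mul]
      simp only [hw']
      ring
    · obtain ⟨E, h1, h2, h3, h4⟩ := shrink hτ (fun v hv => hv.1) (hGm R) hR N
      have hne : ∀ v ∈ E, ∀ k, w' (tz τ k v) ≠ 0 := fun v hv k => mul_ne_zero hex ((h1 hv).2.1 k)
      refine ⟨E, h2, h3, hne, fun v hv n => ?_, h4⟩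
      have h5 := (h1 hv).2.2 n.natAbs
      have h6 : ((n.natAbs : ℕ) : ℝ) = |(n : ℝ)| := by
        rw [Nat.cast_natAbs]; push_cast; rfl
      rw [h6] at h5
      rcases le_total 0 n with hn | hn
      · have h7 : ((n.natAbs : ℕ) : ℤ) = n := by omega
        have h8 := norm_coc_nat (hne v hv) n.natAbs
        rw [h7] at h8
        have h9 : ∑ k ∈ Finset.range n.natAbs, Real.log ‖w' (tz τ k v)‖
            = ∑ k ∈ Finset.range n.natAbs, f (tz τ k v) :=
          Finset.sum_congr rfl fun k _ => hlog _ ((h1 hv).2.1 _)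
        rw [h8, h9, ← Real.exp_neg]
        have h10 := abs_le.1 h5.1
        exact ⟨Real.exp_le_exp.2 h10.2, Real.exp_le_exp.2 (by linarith [h10.1])⟩
      · have h7 : -((n.natAbs : ℕ) : ℤ) = n := by omega
        have h8 := norm_coc_neg (hne v hv) n.natAbs
        rw [h7] at h8
        have h9 : ∑ k ∈ Finset.range n.natAbs, Real.log ‖w' (tz τ (-((k : ℤ) + 1)) v)‖
            = ∑ k ∈ Finset.range n.natAbs, f (tz τ (-((k : ℤ) + 1)) v) :=
          Finset.sum_congr rfl fun k _ => hlog _ ((h1 hv).2.1 _)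
        rw [h8, h9, ← Real.exp_neg, neg_neg]
        have h10 := abs_le.1 h5.2
        exact ⟨Real.exp_le_exp.2 (by linarith [h10.1]), Real.exp_le_exp.2 h10.2⟩
  obtain ⟨V, hV1, hV2, hV3, hV4⟩ := key
  refine ⟨V, hV1, hV2, hV3, fun S hS x hx => hV4 S ?_ x hx⟩
  rw [mul_smul_comm, smul_mul_assoc, hS]

end Pool.Agent.U523.WC
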