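import Pool.Agent.U523.WC.Loc

/-!
# Polynomial bounds of Birkhoff sums from mean squares
-/

set_option autoImplicit false
open MeasureTheory Filter Topology Set

namespace Pool.Agent.U523.WC

variable {Ω : Type} [MeasurableSpace Ω] {μ : Measure Ω}

theorem pow_gap (m j : ℕ) : ((j + 2 : ℕ) : ℝ) ^ (m + 1) - ((j + 1 : ℕ) : ℝ) ^ (m + 1)
    ≤ (m + 1) * 2 ^ m * ((j + 1 : ℕ) : ℝ) ^ m := by
  have h1 : ((j + 2 : ℕ) : ℝ) ≤ 2 * ((j + 1 : ℕ) : ℝ) := by push_cast; linarith [(Nat.cast_nonneg j : (0 : ℝ) ≤ j)]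
  have h2 : ((j + 2 : ℕ) : ℝ) ^ (m + 1) - ((j + 1 : ℕ) : ℝ) ^ (m + 1)
      = (((j + 2 : ℕ) : ℝ) - ((j + 1 : ℕ) : ℝ)) *
        ∑ i ∈ Finset.range (m + 1), ((j + 2 : ℕ) : ℝ) ^ i * ((j + 1 : ℕ) : ℝ) ^ (m - i) := by
    have h := geom_sum₂_mul (((j + 2 : ℕ) : ℝ)) (((j + 1 : ℕ) : ℝ)) (m + 1)
    rw [← h, mul_comm]
    simp only [Nat.add_sub_cancel]
  have h3 : (((j + 2 : ℕ) : ℝ) - ((j + 1 : ℕ) : ℝ)) = 1 := by push_cast; ring
  rw [h2, h3, one_mul]
  have h4 : ∀ i ∈ Finset.range (m + 1), ((j + 2 : ℕ) : ℝ) ^ i * ((j + 1 : ℕ) : ℝ) ^ (m - i)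
      ≤ 2 ^ m * ((j + 1 : ℕ) : ℝ) ^ m := by
    intro i hi
    have hi' : i ≤ m := Nat.lt_succ_iff.1 (Finset.mem_range.1 hi)
    calc ((j + 2 : ℕ) : ℝ) ^ i * ((j + 1 : ℕ) : ℝ) ^ (m - i)
        ≤ (2 * ((j + 1 : ℕ) : ℝ)) ^ i * ((j + 1 : ℕ) : ℝ) ^ (m - i) := by gcongr
      _ = 2 ^ i * ((j + 1 : ℕ) : ℝ) ^ m := by
          rw [mul_pow, mul_assoc, ← pow_add]; congr 2; omega
      _ ≤ 2 ^ m * ((j + 1 : ℕ) : ℝ) ^ m := by
          gcongr
          norm_num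
  refine (Finset.sum_le_sum h4).trans ?_
  rw [Finset.sum_const, Finset.card_range, nsmul_eq_mul]
  push_cast
  ring_nf
  rfl

theorem ae_bound {u : ℕ → Ω → ℝ} (hu : ∀ k, Measurable (u k)) {D C δ : ℝ} (hD : 0 ≤ D) (hC : 0 ≤ C)
    {m : ℕ} (hm : 1 ≤ ((m + 1 : ℕ) : ℝ) * δ)
    (h1 : ∀ k, ∫⁻ v, ENNReal.ofReal (u k v ^ 2) ∂μ ≤ ENNReal.ofReal D)
    (h2 : ∀ n : ℕ, 1 ≤ n → ∫⁻ v, ENNReal.ofReal ((∑ k ∈ Finset.range n, u k v) ^ 2) ∂μ
      ≤ ENNReal.ofReal (C * (n : ℝ) ^ (2 - 2 * δ))) :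
    ∀ᵐ v ∂μ, ∃ R : ℝ, ∀ n : ℕ,
      |∑ k ∈ Finset.range n, u k v| ≤ R * (1 + (n : ℝ)) ^ (1 - 1 / (4 * ((m + 1 : ℕ) : ℝ))) := by
  set M : ℝ := ((m + 1 : ℕ) : ℝ) with hM
  have hM0 : 0 < M := by rw [hM]; positivity
  set t : ℝ := 1 - 1 / (4 * M) with ht
  have hM1 : 1 ≤ M := by rw [hM]; push_cast; linarith [(Nat.cast_nonneg m : (0 : ℝ) ≤ m)]
  have ht0 : 0 ≤ t := by
    have : 1 / (4 * M) ≤ 1 := by rw [div_le_one (by positivity)]; linarith
    linarith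
  set N : ℕ → ℕ := fun j => (j + 1) ^ (m + 1) with hN
  have hN1 : ∀ j, 1 ≤ N j := fun j => Nat.one_le_pow _ _ (by omega)
  have hNr : ∀ j, ((N j : ℕ) : ℝ) = ((j + 1 : ℕ) : ℝ) ^ M := by
    intro j
    rw [hM, Real.rpow_natCast]; simp only [hN]; push_cast; rfl
  set x : ℕ → ℝ := fun j => ((j + 1 : ℕ) : ℝ) with hx
  have hxp : ∀ j, 0 < x j := fun j => by simp only [hx]; positivity
  have hx1 : ∀ j, 1 ≤ x j := fun j => by simp only [hx]; push_cast; linarith [(Nat.cast_nonneg j : (0 : ℝ) ≤ j)]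
  set q : ℕ → ℝ := fun j => ((N j : ℝ) ^ (2 * t))⁻¹ with hq
  have hqv : ∀ j, q j = x j ^ (-(2 * M * t)) := by
    intro j
    simp only [hq, hx]
    rw [hNr, ← Real.rpow_mul (by positivity), ← Real.rpow_neg (by positivity)]
    congr 1; ring
  have hqp : ∀ j, 0 ≤ q j := fun j => by rw [hqv]; exact (Real.rpow_pos_of_pos (hxp j) _).le
  have hMt : 2 * M * t = 2 * M - 1 / 2 := by
    rw [ht]; field_simp; ring
  set V : ℕ → Ω → ℝ := fun j v => ∑ k ∈ Finset.Ico (N j) (N (j + 1)), |u k v| with hV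
  set c : ℕ → ℝ := fun j => ((Finset.Ico (N j) (N (j + 1))).card : ℝ) with hc
  have hc0 : ∀ j, 0 ≤ c j := fun j => by simp only [hc]; positivity
  have hcle : ∀ j, c j ≤ (m + 1) * 2 ^ m * x j ^ (m : ℝ) := by
    intro j
    simp only [hc, hx]
    rw [Nat.card_Ico, Real.rpow_natCast]
    have h3 : N j ≤ N (j + 1) := Nat.pow_le_pow_left (by omega) _
    rw [Nat.cast_sub h3]
    simp only [hN]
    have := pow_gap m j
    push_cast at this ⊢
    have e1 : ((j : ℝ) + 1 + 1) = j + 2 := by ring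
    rw [e1]
    exact this
  have hVint : ∀ j, ∫⁻ v, ENNReal.ofReal (V j v ^ 2) ∂μ ≤ ENNReal.ofReal (c j ^ 2 * D) := by
    intro j
    calc ∫⁻ v, ENNReal.ofReal (V j v ^ 2) ∂μ
        ≤ ∫⁻ v, ENNReal.ofReal (c j) * ∑ k ∈ Finset.Ico (N j) (N (j + 1)), ENNReal.ofReal (u k v ^ 2) ∂μ := by
          refine lintegral_mono fun v => ?_
          rw [← ENNReal.ofReal_sum_of_nonneg fun k _ => sq_nonneg _, ← ENNReal.ofReal_mul (hc0 j)]
          refine ENNReal.ofReal_le_ofReal ?_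
          have h3 := sq_sum_le_card_mul_sum_sq (s := Finset.Ico (N j) (N (j + 1))) (f := fun k => |u k v|)
          simpa only [sq_abs] using h3
      _ = ENNReal.ofReal (c j) * ∑ k ∈ Finset.Ico (N j) (N (j + 1)), ∫⁻ v, ENNReal.ofReal (u k v ^ 2) ∂μ := by
          rw [lintegral_const_mul _ (Finset.measurable_sum _ fun k _ => ((hu k).pow_const 2).ennreal_ofReal),
            lintegral_finsetSum _ fun k _ => ((hu k).pow_const 2).ennreal_ofReal]
      _ ≤ ENNReal.ofReal (c j) * ∑ k ∈ Finset.Ico (N j) (N (j + 1)), ENNReal.ofReal D := by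
          gcongr with k hk
          exact h1 k
      _ = ENNReal.ofReal (c j ^ 2 * D) := by
          rw [Finset.sum_const, nsmul_eq_mul, ← ENNReal.ofReal_natCast, ← ENNReal.ofReal_mul (by positivity),
            ← ENNReal.ofReal_mul (hc0 j)]
          congr 1
          simp only [hc]; ring
  set K : ℝ := C + ((m + 1) * 2 ^ m) ^ 2 * D with hK
  have hK0 : 0 ≤ K := by positivity
  set F : ℕ → Ω → ENNReal := fun j v =>
    (ENNReal.ofReal ((∑ k ∈ Finset.range (N j), u k v) ^ 2) + ENNReal.ofReal (V j v ^ 2))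
      * ENNReal.ofReal (q j) with hF
  have mS : ∀ n, Measurable fun v => ENNReal.ofReal ((∑ k ∈ Finset.range n, u k v) ^ 2) :=
    fun n => ((Finset.measurable_sum _ fun k _ => hu k).pow_const 2).ennreal_ofReal
  have mV : ∀ j, Measurable fun v => ENNReal.ofReal (V j v ^ 2) :=
    fun j => ((Finset.measurable_sum _ fun k _ => (hu k).norm).pow_const 2).ennreal_ofReal
  have hFm : ∀ j, Measurable (F j) := fun j => ((mS _).add (mV j)).mul_const _
  have hFint : ∀ j, ∫⁻ v, F j v ∂μ ≤ ENNReal.ofReal (K * x j ^ (-(3 / 2 : ℝ))) := by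
    intro j
    have hq0 := hqp j
    have hxj := hxp j
    simp only [hF]
    have mSV : Measurable fun v => ENNReal.ofReal ((∑ k ∈ Finset.range (N j), u k v) ^ 2)
      + ENNReal.ofReal (V j v ^ 2) := (mS _).add (mV j)
    rw [lintegral_mul_const _ mSV, lintegral_add_left (mS _)]
    refine (mul_le_mul_left (add_le_add (h2 (N j) (hN1 j)) (hVint j)) _).trans ?_
    rw [← ENNReal.ofReal_add (by positivity) (by positivity), ← ENNReal.ofReal_mul (by positivity)]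
    refine ENNReal.ofReal_le_ofReal ?_
    have e1 : C * ((N j : ℕ) : ℝ) ^ (2 - 2 * δ) * q j ≤ C * x j ^ (-(3 / 2 : ℝ)) := by
      rw [hqv, hNr, ← Real.rpow_mul (by positivity), mul_assoc]
      refine mul_le_mul_of_nonneg_left ?_ hC
      show x j ^ (M * (2 - 2 * δ)) * x j ^ (-(2 * M * t)) ≤ _
      rw [← Real.rpow_add hxj]
      refine Real.rpow_le_rpow_of_exponent_le (hx1 j) ?_
      rw [hMt]
      nlinarith
    have e2 : c j ^ 2 * D * q j ≤ ((m + 1) * 2 ^ m) ^ 2 * D * x j ^ (-(3 / 2 : ℝ)) := by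
      have e3 : c j ^ 2 ≤ ((m + 1) * 2 ^ m) ^ 2 * (x j ^ (m : ℝ)) ^ 2 := by
        rw [← mul_pow]
        exact pow_le_pow_left₀ (hc0 j) (hcle j) 2
      have e4 : (x j ^ (m : ℝ)) ^ 2 * q j = x j ^ (-(3 / 2 : ℝ)) := by
        rw [hqv, ← Real.rpow_natCast, ← Real.rpow_mul hxj.le, ← Real.rpow_add hxj]
        congr 1
        rw [hMt, hM]; push_cast; ring
      calc c j ^ 2 * D * q j ≤ (((m + 1) * 2 ^ m) ^ 2 * (x j ^ (m : ℝ)) ^ 2) * D * q j := by gcongr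
        _ = ((m + 1) * 2 ^ m) ^ 2 * D * ((x j ^ (m : ℝ)) ^ 2 * q j) := by ring
        _ = _ := by rw [e4]
    calc (C * ((N j : ℕ) : ℝ) ^ (2 - 2 * δ) + c j ^ 2 * D) * q j
        = C * ((N j : ℕ) : ℝ) ^ (2 - 2 * δ) * q j + c j ^ 2 * D * q j := by ring
      _ ≤ C * x j ^ (-(3 / 2 : ℝ)) + ((m + 1) * 2 ^ m) ^ 2 * D * x j ^ (-(3 / 2 : ℝ)) := add_le_add e1 e2
      _ = _ := by rw [hK]; ring
  have hsum : ∫⁻ v, ∑' j, F j v ∂μ ≠ ⊤ := by
    rw [lintegral_tsum fun j => (hFm j).aemeasurable]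
    have h3 : Summable fun j : ℕ => K * x j ^ (-(3 / 2 : ℝ)) := by
      have h4 := (summable_nat_add_iff 1).2 (Real.summable_nat_rpow.2 (by norm_num : (-(3 / 2 : ℝ)) < -1))
      exact h4.mul_left K
    exact ne_top_of_le_ne_top h3.tsum_ofReal_ne_top (ENNReal.tsum_le_tsum hFint)
  have hae := ae_lt_top (Measurable.tsum hFm) hsum
  filter_upwards [hae] with v hv
  set A : ℝ := (∑' j, F j v).toReal with hA
  have hFle : ∀ j, F j v ≤ ENNReal.ofReal A := by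
    intro j
    rw [hA, ENNReal.ofReal_toReal hv.ne]
    exact ENNReal.le_tsum j
  have hA0 : 0 ≤ A := ENNReal.toReal_nonneg
  have hreal : ∀ j, ((∑ k ∈ Finset.range (N j), u k v) ^ 2 + V j v ^ 2) * q j ≤ A := by
    intro j
    have h3 := hFle j
    simp only [hF] at h3
    rw [← ENNReal.ofReal_add (sq_nonneg _) (sq_nonneg _), ← ENNReal.ofReal_mul (by positivity)] at h3
    exact (ENNReal.ofReal_le_ofReal_iff hA0).1 h3
  have hNt : ∀ j, 0 < ((N j : ℕ) : ℝ) ^ t := fun j =>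
    Real.rpow_pos_of_pos (by exact_mod_cast (hN1 j)) _
  have hsq : ∀ j (y : ℝ), y ^ 2 * q j ≤ A → |y| ≤ Real.sqrt A * ((N j : ℕ) : ℝ) ^ t := by
    intro j y hy
    have h4 : ((N j : ℕ) : ℝ) ^ (2 * t) = (((N j : ℕ) : ℝ) ^ t) ^ 2 := by
      rw [← Real.rpow_natCast, ← Real.rpow_mul (by positivity)]; congr 1; push_cast; ring
    simp only [hq] at hy
    rw [h4, mul_inv_le_iff₀ (by have := hNt j; positivity)] at hy
    refine abs_le_of_sq_le_sq ?_ (by have := hNt j; positivity)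
    rw [mul_pow, Real.sq_sqrt hA0]
    exact hy
  have hS : ∀ j, |∑ k ∈ Finset.range (N j), u k v| ≤ Real.sqrt A * ((N j : ℕ) : ℝ) ^ t := by
    intro j
    refine hsq j _ (le_trans ?_ (hreal j))
    exact mul_le_mul_of_nonneg_right (by linarith [sq_nonneg (V j v)]) (hqp j)
  have hV' : ∀ j, |V j v| ≤ Real.sqrt A * ((N j : ℕ) : ℝ) ^ t := by
    intro j
    refine hsq j _ (le_trans ?_ (hreal j))
    exact mul_le_mul_of_nonneg_right
      (by linarith [sq_nonneg (∑ k ∈ Finset.range (N j), u k v)]) (hqp j)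
  refine ⟨2 * Real.sqrt A, fun n => ?_⟩
  rcases Nat.eq_zero_or_pos n with rfl | hn
  · simp only [Finset.range_zero, Finset.sum_empty, abs_zero]
    positivity
  · set j := Nat.findGreatest (fun j => N j ≤ n) n with hj
    have hj1 : N j ≤ n := by
      have : (fun j => N j ≤ n) 0 := by
        show (0 + 1) ^ (m + 1) ≤ n
        rw [zero_add, one_pow]
        exact hn
      exact Nat.findGreatest_spec (P := fun j => N j ≤ n) (Nat.zero_le n) this
    have hj2 : n < N (j + 1) := by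
      by_contra hcon
      push Not at hcon
      have h5 : j + 1 ≤ n := by
        have h6 : j + 1 + 1 ≤ N (j + 1) := by
          simp only [hN]
          calc j + 1 + 1 = (j + 1 + 1) ^ 1 := (pow_one _).symm
            _ ≤ (j + 1 + 1) ^ (m + 1) := Nat.pow_le_pow_right (by omega) (by omega)
        omega
      exact Nat.findGreatest_is_greatest (P := fun j => N j ≤ n) (n := n) (k := j + 1)
        (by rw [← hj]; omega) h5 hcon
    have h7 : ∑ k ∈ Finset.range n, u k v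
        = ∑ k ∈ Finset.range (N j), u k v + ∑ k ∈ Finset.Ico (N j) n, u k v :=
      (Finset.sum_range_add_sum_Ico _ hj1).symm
    have h8 : |∑ k ∈ Finset.Ico (N j) n, u k v| ≤ V j v := by
      refine (Finset.abs_sum_le_sum_abs _ _).trans ?_
      exact Finset.sum_le_sum_of_subset_of_nonneg (Finset.Ico_subset_Ico_right hj2.le)
        fun _ _ _ => abs_nonneg _
    have h9 : ((N j : ℕ) : ℝ) ^ t ≤ (1 + (n : ℝ)) ^ t := by
      refine Real.rpow_le_rpow (by positivity) ?_ ht0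
      have : ((N j : ℕ) : ℝ) ≤ n := by exact_mod_cast hj1
      linarith
    rw [h7]
    calc |∑ k ∈ Finset.range (N j), u k v + ∑ k ∈ Finset.Ico (N j) n, u k v|
        ≤ |∑ k ∈ Finset.range (N j), u k v| + |∑ k ∈ Finset.Ico (N j) n, u k v| := abs_add_le _ _
      _ ≤ Real.sqrt A * ((N j : ℕ) : ℝ) ^ t + Real.sqrt A * ((N j : ℕ) : ℝ) ^ t :=
          add_le_add (hS j) (h8.trans ((le_abs_self _).trans (hV' j)))
      _ = 2 * Real.sqrt A * ((N j : ℕ) : ℝ) ^ t := by ring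
      _ ≤ 2 * Real.sqrt A * (1 + (n : ℝ)) ^ t := by gcongr

end Pool.Agent.U523.WC
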