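import Pool.Agent.U523.WC.Fin

/-!
# Operators `M(w) U` on Banach modules over the bounded measurable functions
-/

set_option autoImplicit false
open MeasureTheory Filter Topology Set

namespace Pool.Agent.U523.WC

variable {Ω : Type} [MeasurableSpace Ω] {X : Type} [NormedAddCommGroup X] [NormedSpace ℂ X]

/-- A representation of the algebra of the bounded measurable functions by operators on `X`
(only the values at bounded measurable functions matter). -/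
structure IsRep (M : (Ω → ℂ) → (X →L[ℂ] X)) (K : ℝ) : Prop where
  one : M (fun _ => 1) = 1
  mul : ∀ f g : Ω → ℂ, Measurable f → Measurable g → (∃ C : ℝ, ∀ v, ‖f v‖ ≤ C) →
    (∃ C : ℝ, ∀ v, ‖g v‖ ≤ C) → M (fun v => f v * g v) = M f * M g
  smul : ∀ (c : ℂ) (f : Ω → ℂ), Measurable f → (∃ C : ℝ, ∀ v, ‖f v‖ ≤ C) →
    M (fun v => c * f v) = c • M f
  bound : ∀ (f : Ω → ℂ) (C : ℝ), Measurable f → (∀ v, ‖f v‖ ≤ C) → ‖M f‖ ≤ K * C

/-- `U` is invertible, its integer powers have norms at most `K`, and `U M(f) = M(f ∘ τ) U`. -/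
structure IsCovariant (τ : Ω ≃ᵐ Ω) (M : (Ω → ℂ) → (X →L[ℂ] X)) (K : ℝ) (U : (X →L[ℂ] X)ˣ) : Prop where
  bound : ∀ n : ℤ, ‖((U ^ n : (X →L[ℂ] X)ˣ) : X →L[ℂ] X)‖ ≤ K
  cov : ∀ f : Ω → ℂ, Measurable f → (∃ C : ℝ, ∀ v, ‖f v‖ ≤ C) →
    (U : X →L[ℂ] X) * M f = M (fun v => f (τ v)) * (U : X →L[ℂ] X)

theorem coc_add {τ : Ω ≃ᵐ Ω} {w : Ω → ℂ} {v : Ω} (hv : ∀ k : ℤ, w (tz τ k v) ≠ 0) (m n : ℤ) :
    coc τ w (m + n) v = coc τ w m v * coc τ w n (tz τ m v) := by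
  have hv' : ∀ k : ℤ, w (tz τ k (tz τ m v)) ≠ 0 := fun k => by rw [← tz_add]; exact hv _
  induction n using Int.induction_on with
  | zero => simp [coc_zero]
  | succ i ih =>
    rw [← add_assoc, coc_succ hv, ih, coc_succ hv', mul_assoc, ← tz_add]
    congr 3; ring
  | pred i ih =>
    have h1 := coc_succ hv (m + (-(i : ℤ) - 1))
    have h2 := coc_succ hv' (-(i : ℤ) - 1)
    have e1 : m + (-(i : ℤ) - 1) + 1 = m + -(i : ℤ) := by ring
    have e2 : (-(i : ℤ) - 1 + 1) = -(i : ℤ) := by ring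
    rw [e1] at h1
    rw [e2] at h2
    have h3 : w (tz τ (m + (-(i : ℤ) - 1)) v) ≠ 0 := hv _
    have h4 : tz τ (-(i : ℤ) - 1) (tz τ m v) = tz τ (m + (-(i : ℤ) - 1)) v := by
      rw [← tz_add]; congr 1; ring
    rw [h4] at h2
    have h5 : coc τ w (m + (-(i : ℤ) - 1)) v * w (tz τ (m + (-(i : ℤ) - 1)) v)
        = coc τ w m v * coc τ w (-(i : ℤ) - 1) (tz τ m v) * w (tz τ (m + (-(i : ℤ) - 1)) v) := by
      rw [← h1, ih, h2]; ring
    exact mul_right_cancel₀ h3 h5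

section
variable {τ : Ω ≃ᵐ Ω} {M : (Ω → ℂ) → (X →L[ℂ] X)} {K : ℝ} {U : (X →L[ℂ] X)ˣ}

theorem tz_meas (τ : Ω ≃ᵐ Ω) (n : ℤ) : Measurable (tz τ n) := by
  induction n using Int.induction_on with
  | zero => exact measurable_id
  | succ i ih =>
    have : tz τ ((i : ℤ) + 1) = τ ∘ tz τ i := by funext v; exact tz_succ τ i v
    rw [this]; exact τ.measurable.comp ih
  | pred i ih =>
    have : tz τ (-(i : ℤ) - 1) = τ.symm ∘ tz τ (-i) := by
      funext v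
      rw [Function.comp, ← tz_neg_one, ← tz_add]; congr 1; ring
    rw [this]; exact τ.symm.measurable.comp ih

theorem coc_meas' (τ : Ω ≃ᵐ Ω) {w : Ω → ℂ} (hw : Measurable w) (n : ℤ) : Measurable (coc τ w n) := by
  cases n with
  | ofNat n =>
    show Measurable fun v => ∏ k ∈ Finset.range n, w (tz τ k v)
    exact Finset.measurable_prod _ fun (k : ℕ) _ => hw.comp (tz_meas τ k)
  | negSucc n =>
    show Measurable fun v => (∏ k ∈ Finset.range (n + 1), w (tz τ (-((k : ℤ) + 1)) v))⁻¹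
    exact (Finset.measurable_prod _ fun (k : ℕ) _ => hw.comp (tz_meas τ _)).inv

theorem cov_zpow (hU : IsCovariant τ M K U) (n : ℤ) (f : Ω → ℂ) (hf : Measurable f)
    (hb : ∃ C : ℝ, ∀ v, ‖f v‖ ≤ C) :
    ((U ^ n : (X →L[ℂ] X)ˣ) : X →L[ℂ] X) * M f
      = M (fun v => f (tz τ n v)) * ((U ^ n : (X →L[ℂ] X)ˣ) : X →L[ℂ] X) := by
  obtain ⟨C, hC⟩ := hb
  induction n using Int.induction_on generalizing f with
  | zero => simp [tz_zero]
  | succ i ih =>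
    have hfτ : Measurable fun v => f (τ v) := hf.comp τ.measurable
    have hfi := ih (fun v => f (τ v)) hfτ (fun v => hC _)
    rw [zpow_add_one, Units.val_mul, mul_assoc, hU.cov f hf ⟨C, hC⟩, ← mul_assoc,
      hfi, mul_assoc]
    have h9 : (fun v => f (tz τ ((i : ℤ) + 1) v)) = fun v => f (τ (tz τ i v)) := by
      funext v
      rw [tz_succ]
    rw [h9]
  | pred i ih =>
    have h1 := hU.cov (fun v => f (tz τ (-1) v)) (hf.comp (tz_meas τ _)) ⟨C, fun v => hC _⟩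
    have h2 : (fun v => f (tz τ (-1) (τ v))) = f := by
      funext v
      rw [← tz_one, ← tz_add]; simp [tz_zero]
    rw [h2] at h1
    have h3 : ((U⁻¹ : (X →L[ℂ] X)ˣ) : X →L[ℂ] X) * M f
        = M (fun v => f (tz τ (-1) v)) * ((U⁻¹ : (X →L[ℂ] X)ˣ) : X →L[ℂ] X) := by
      rw [Units.inv_mul_eq_iff_eq_mul, ← mul_assoc, h1, mul_assoc, Units.mul_inv, mul_one]
    have hfτ : Measurable fun v => f (tz τ (-1) v) := hf.comp (tz_meas τ _)
    have hfi := ih (fun v => f (tz τ (-1) v)) hfτ (fun v => hC _)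
    rw [zpow_sub_one, Units.val_mul, mul_assoc, h3, ← mul_assoc, hfi, mul_assoc]
    have h9 : (fun v => f (tz τ (-(i : ℤ) - 1) v)) = fun v => f (tz τ (-1) (tz τ (-(i : ℤ)) v)) := by
      funext v
      rw [← tz_add]
      have h10 : -1 + -(i : ℤ) = -(i : ℤ) - 1 := by ring
      rw [h10]
    rw [h9]

theorem coc_bdd {w : Ω → ℂ} {D : ℝ} (hD : 1 ≤ D) (h1 : ∀ v, ‖w v‖ ≤ D) (h2 : ∀ v, ‖w v‖⁻¹ ≤ D)
    (n : ℤ) : ∃ C : ℝ, ∀ v, ‖coc τ w n v‖ ≤ C := by
  cases n with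
  | ofNat n =>
    refine ⟨∏ k ∈ Finset.range n, D, fun v => ?_⟩
    show ‖∏ k ∈ Finset.range n, w (tz τ k v)‖ ≤ _
    rw [norm_prod]
    exact Finset.prod_le_prod (fun _ _ => norm_nonneg _) fun k _ => h1 _
  | negSucc n =>
    refine ⟨∏ k ∈ Finset.range (n + 1), D, fun v => ?_⟩
    show ‖(∏ k ∈ Finset.range (n + 1), w (tz τ (-((k : ℤ) + 1)) v))⁻¹‖ ≤ _
    rw [norm_inv, norm_prod, ← Finset.prod_inv_distrib]
    exact Finset.prod_le_prod (fun _ _ => by positivity) fun k _ => h2 _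

theorem zpow_eq (hM : IsRep M K) (hU : IsCovariant τ M K U) {w : Ω → ℂ} (hw : Measurable w)
    {D : ℝ} (hD : 1 ≤ D) (h1 : ∀ v, ‖w v‖ ≤ D) (h2 : ∀ v, ‖w v‖⁻¹ ≤ D) (hw0 : ∀ v, w v ≠ 0)
    {T : (X →L[ℂ] X)ˣ} (hT : (T : X →L[ℂ] X) = M w * (U : X →L[ℂ] X)) (n : ℤ) :
    ((T ^ n : (X →L[ℂ] X)ˣ) : X →L[ℂ] X)
      = M (coc τ w n) * ((U ^ n : (X →L[ℂ] X)ˣ) : X →L[ℂ] X) := by
  have hb := fun n => coc_bdd (τ := τ) hD h1 h2 n
  have hm := fun n => coc_meas' τ hw n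
  have step : ∀ n : ℤ, M (coc τ w (n + 1)) * ((U ^ (n + 1) : (X →L[ℂ] X)ˣ) : X →L[ℂ] X)
      = M (coc τ w n) * ((U ^ n : (X →L[ℂ] X)ˣ) : X →L[ℂ] X) * (T : X →L[ℂ] X) := by
    intro n
    have e1 : coc τ w (n + 1) = fun v => coc τ w n v * w (tz τ n v) := by
      funext v; exact coc_succ (fun k => hw0 _) n
    have hwn : Measurable fun v => w (tz τ n v) := hw.comp (tz_meas τ n)
    rw [e1, hM.mul (coc τ w n) (fun v => w (tz τ n v)) (hm n) hwn (hb n) ⟨D, fun v => h1 _⟩, hT,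
      mul_assoc (M (coc τ w n)) _ (M w * _), ← mul_assoc _ (M w), cov_zpow hU n w hw ⟨D, h1⟩,
      zpow_add_one, Units.val_mul]
    simp only [mul_assoc]
  induction n using Int.induction_on with
  | zero =>
    have : coc τ w 0 = fun _ => 1 := by funext v; exact coc_zero τ w v
    simp [this, hM.one]
  | succ i ih => rw [zpow_add_one, Units.val_mul, ih, step]
  | pred i ih =>
    have h3 := step (-(i : ℤ) - 1)
    have e2 : (-(i : ℤ) - 1 + 1) = -(i : ℤ) := by ring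
    rw [e2, ← ih] at h3
    rw [zpow_sub_one, Units.val_mul, h3, mul_assoc, Units.mul_inv, mul_one]

end

end Pool.Agent.U523.WC
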