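import Pool.Agent.U523.WC.Mod

/-!
# The theorems for the operators `M(w) U`
-/

set_option autoImplicit false
open MeasureTheory Filter Topology Set

namespace Pool.Agent.U523.WC

variable {Ω : Type} [MeasurableSpace Ω] {X : Type} [NormedAddCommGroup X] [NormedSpace ℂ X]
variable {τ : Ω ≃ᵐ Ω} {M : (Ω → ℂ) → (X →L[ℂ] X)} {K : ℝ} {U : (X →L[ℂ] X)ˣ}

/-- the indicator function -/
noncomputable def ind (E : Set Ω) : Ω → ℂ := E.indicator fun _ => 1

theorem ind_mem {E : Set Ω} {v : Ω} (h : v ∈ E) : ind E v = 1 := by simp [ind, h]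

theorem ind_not {E : Set Ω} {v : Ω} (h : v ∉ E) : ind E v = 0 := by simp [ind, h]

theorem ind_meas {E : Set Ω} (h : MeasurableSet E) : Measurable (ind E) :=
  measurable_const.indicator h

theorem ind_le (E : Set Ω) (v : Ω) : ‖ind E v‖ ≤ 1 := by
  by_cases h : v ∈ E
  · simp [ind_mem h]
  · simp [ind_not h]

theorem core_mod [CompleteSpace X] (hM : IsRep M K) (hU : IsCovariant τ M K U) {w : Ω → ℂ}
    (hw : Measurable w) {D : ℝ} (hD : 1 ≤ D) (h1 : ∀ v, ‖w v‖ ≤ D) (h2 : ∀ v, ‖w v‖⁻¹ ≤ D)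
    (hw0 : ∀ v, w v ≠ 0) {T : (X →L[ℂ] X)ˣ} (hT : (T : X →L[ℂ] X) = M w * (U : X →L[ℂ] X))
    {θ R : ℝ} (hθ0 : 0 ≤ θ) (hθ1 : θ < 1)
    (hE : ∀ N : ℕ, ∃ E : Set Ω, MeasurableSet E ∧ M (ind E) ≠ 0 ∧
      (∀ v ∈ E, ∀ n : ℤ, ‖coc τ w n v‖ ≤ Real.exp (R * (1 + |(n : ℝ)|) ^ θ) ∧
        ‖coc τ w n v‖⁻¹ ≤ Real.exp (R * (1 + |(n : ℝ)|) ^ θ)) ∧
      ∀ v ∈ E, ∀ n : ℤ, n ≠ 0 → |n| ≤ N → tz τ n v ∉ E) : HasHyper (T : X →L[ℂ] X) := by
  obtain ⟨a, c, C, hc, ha0, haB, hconv⟩ := exists_divisor ((1 + θ) / 2) (by linarith) (by linarith)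
  have hK0 : 0 ≤ K := by
    have := hM.bound (fun _ => 1) 1 measurable_const (fun v => by simp)
    rw [mul_one] at this
    exact (norm_nonneg _).trans this
  set B : ℤ → ℝ := fun n => Real.exp (R * (1 + |(n : ℝ)|) ^ θ) with hB
  have hBp : ∀ n, 0 < B n := fun n => Real.exp_pos _
  have hBn : ∀ n, B (-n) = B n := fun n => by simp [hB]
  have hWs0 : Summable fun n => ‖a n‖ * B n := by
    have h3 := (summable_weight (s := (1 + θ) / 2) (R := R) hθ0 (by linarith) hc).mul_left C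
    refine Summable.of_nonneg_of_le (fun n => by have := hBp n; positivity) (fun n => ?_) h3
    calc ‖a n‖ * B n ≤ (C * Real.exp (-(c * (1 + |(n : ℝ)|) ^ ((1 + θ) / 2)))) * B n :=
          mul_le_mul_of_nonneg_right (haB n) (hBp n).le
      _ = _ := by simp only [hB]; ring
  have hWs : Summable fun n => ‖a n‖ * (K * B n * K) := by
    refine (hWs0.mul_left (K * K)).congr fun n => ?_
    ring
  set b : ℤ → ℂ := fun n => e n (1 / 2) * a n with hb
  have hbn : ∀ n, ‖b n‖ = ‖a n‖ := fun n => by simp only [hb, norm_mul, norm_e, one_mul]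
  obtain ⟨N, hN⟩ := tail _ hWs ‖a 0‖ (norm_pos_iff.2 ha0)
  obtain ⟨E, hEm, hEp, hEg, hEd⟩ := hE N
  have hcm := fun n => coc_meas' τ hw n
  have hcb := fun n => coc_bdd (τ := τ) hD h1 h2 n
  have him := ind_meas hEm
  have hib : ∃ C : ℝ, ∀ v, ‖ind E v‖ ≤ C := ⟨1, ind_le E⟩
  have himn : ∀ n, Measurable fun v => ind E (tz τ n v) := fun n => him.comp (tz_meas τ n)
  have hibn : ∀ n, ∃ C : ℝ, ∀ v, ‖ind E (tz τ n v)‖ ≤ C := fun n => ⟨1, fun v => ind_le E _⟩
  set P : X →L[ℂ] X := M (ind E) with hP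
  have hTn := fun n => zpow_eq hM hU hw hD h1 h2 hw0 hT n
  set A : ℤ → (X →L[ℂ] X) := fun n => ((T ^ n : (X →L[ℂ] X)ˣ) : X →L[ℂ] X) with hA
  set Un : ℤ → (X →L[ℂ] X) := fun n => ((U ^ n : (X →L[ℂ] X)ˣ) : X →L[ℂ] X) with hUn
  have hPA : ∀ n, P * A n = M (fun v => ind E v * coc τ w n v) * Un n := by
    intro n
    rw [hA]
    simp only
    rw [hTn, ← mul_assoc, hM.mul _ _ him (hcm n) hib (hcb n)]
  have hAP : ∀ n, A n * P = M (fun v => coc τ w n v * ind E (tz τ n v)) * Un n := by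
    intro n
    rw [hA]
    simp only
    rw [hTn, mul_assoc, hP, cov_zpow hU n _ him hib, ← mul_assoc,
      hM.mul _ (fun v => ind E (tz τ n v)) (hcm n) (himn n) (hcb n) (hibn n)]
  have nPA : ∀ n, ‖P * A n‖ ≤ K * B n * K := by
    intro n
    rw [hPA]
    refine (norm_mul_le _ _).trans ?_
    refine mul_le_mul ?_ (hU.bound n) (norm_nonneg _) (by have := hBp n; positivity)
    refine hM.bound _ _ (him.mul (hcm n)) fun v => ?_
    by_cases hv : v ∈ E
    · rw [ind_mem hv, one_mul]; exact (hEg v hv n).1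
    · rw [ind_not hv, zero_mul, norm_zero]; exact (hBp n).le
  have nAP : ∀ n, ‖A n * P‖ ≤ K * B n * K := by
    intro n
    rw [hAP]
    refine (norm_mul_le _ _).trans ?_
    refine mul_le_mul ?_ (hU.bound n) (norm_nonneg _) (by have := hBp n; positivity)
    refine hM.bound _ _ ((hcm n).mul (himn n)) fun v => ?_
    by_cases hv : tz τ n v ∈ E
    · rw [ind_mem hv, mul_one]
      have h3 := coc_add (τ := τ) (w := w) (v := tz τ n v) (fun k => hw0 _) (-n) n
      rw [neg_add_cancel, coc_zero, tz_neg_tz] at h3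
      have h4 := (hEg _ hv (-n)).2
      have h5 : ‖coc τ w n v‖ = ‖coc τ w (-n) (tz τ n v)‖⁻¹ := by
        have h6 := congrArg norm h3
        rw [norm_one, norm_mul] at h6
        exact (eq_inv_of_mul_eq_one_right h6.symm)
      rw [h5]
      have h7 := hBn n
      simp only [hB] at h7
      rw [h7] at h4
      exact h4
    · rw [ind_not hv, mul_zero, norm_zero]; exact (hBp n).le
  have zero : ∀ n : ℤ, n ≠ 0 → |n| ≤ N → P * (A n * P) = 0 := by
    intro n hn hnN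
    rw [hAP, ← mul_assoc, hP, ← hM.mul _ (fun v => coc τ w n v * ind E (tz τ n v)) him
      ((hcm n).mul (himn n)) hib (by
        obtain ⟨C', hC'⟩ := hcb n
        refine ⟨C' * 1, fun v => ?_⟩
        rw [norm_mul]
        exact mul_le_mul (hC' v) (ind_le E _) (norm_nonneg _) ((norm_nonneg _).trans (hC' v)))]
    have h3 : (fun v => ind E v * (coc τ w n v * ind E (tz τ n v))) = fun _ => 0 := by
      funext v
      by_cases hv : v ∈ E
      · rw [ind_not (hEd v hv n hn hnN)]; ring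
      · rw [ind_not hv]; ring
    rw [h3]
    have h4 := hM.bound (fun _ => 0) 0 measurable_const (fun v => by simp)
    rw [mul_zero] at h4
    rw [norm_le_zero_iff.1 h4, zero_mul]
  obtain ⟨z, hz⟩ : ∃ z, P z ≠ 0 := by
    by_contra hcon
    push Not at hcon
    exact hEp (by ext z; exact hcon z)
  have hPP : P * P = P := by
    rw [hP, ← hM.mul _ _ him him hib hib]
    congr 1
    funext v
    by_cases hv : v ∈ E
    · rw [ind_mem hv]; ring
    · rw [ind_not hv]; ring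
  set x₀ : X := P z with hx₀
  have hPx : P x₀ = x₀ := congrArg (fun S : X →L[ℂ] X => S z) hPP
  have hxp : 0 < ‖x₀‖ := norm_pos_iff.2 hz
  obtain ⟨y', hy1, hy2⟩ := exists_dual_vector ℂ x₀ hxp.ne'
  set x : ℤ → X := fun n => A n x₀ with hx
  set y : ℤ → (X →L[ℂ] ℂ) := fun n => y'.comp (P * A n) with hy
  have hTx : ∀ n, (T : X →L[ℂ] X) (x n) = x (n + 1) := by
    intro n
    have h3 : (T : X →L[ℂ] X) * A n = A (n + 1) := by
      simp only [hA]
      rw [add_comm, zpow_one_add, Units.val_mul]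
    exact congrArg (fun S : X →L[ℂ] X => S x₀) h3
  have hyT : ∀ n h, y n ((T : X →L[ℂ] X) h) = y (n + 1) h := by
    intro n h
    have h3 : A n * (T : X →L[ℂ] X) = A (n + 1) := by
      simp only [hA]
      rw [zpow_add_one, Units.val_mul]
    have h4 := congrArg (fun S : X →L[ℂ] X => y' (P (S h))) h3
    exact h4
  have hA0 : A 0 = 1 := by simp [hA]
  have hxn : ∀ n, ‖x n‖ ≤ K * B n * K * ‖x₀‖ := by
    intro n
    have h3 : x n = (A n * P) x₀ := by
      show A n x₀ = A n (P x₀)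
      rw [hPx]
    rw [h3]
    exact ((A n * P).le_opNorm _).trans (mul_le_mul_of_nonneg_right (nAP n) (norm_nonneg _))
  have hyn : ∀ n, ‖y n‖ ≤ K * B n * K := by
    intro n
    refine (ContinuousLinearMap.opNorm_comp_le _ _).trans ?_
    rw [hy1, one_mul]
    exact nPA n
  set s : ℤ → ℂ := fun n => y' (P (A n x₀)) with hs
  have v1 : ∀ n, y 0 (x n) = s n := by
    intro n
    show y' (P (A 0 (A n x₀))) = _
    rw [hA0]; rfl
  have v2 : ∀ n, y n (x 0) = s n := by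
    intro n
    show y' (P (A n (A 0 x₀))) = _
    rw [hA0]; rfl
  have s0 : s 0 = (‖x₀‖ : ℂ) := by
    simp only [hs]
    rw [hA0]
    show y' (P x₀) = _
    rw [hPx, hy2]
    rfl
  have sn : ∀ n, ‖s n‖ ≤ (K * B n * K) * ‖x₀‖ := by
    intro n
    have h3 : ‖y' ((P * A n) x₀)‖ ≤ ‖y'‖ * ‖(P * A n) x₀‖ := y'.le_opNorm _
    rw [hy1, one_mul] at h3
    exact h3.trans (((P * A n).le_opNorm _).trans (mul_le_mul_of_nonneg_right (nPA n) (norm_nonneg _)))
  have sz : ∀ n : ℤ, n ≠ 0 → |n| ≤ N → s n = 0 := by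
    intro n hn hnN
    have h3 : s n = y' ((P * (A n * P)) x₀) := by
      show y' (P (A n x₀)) = y' (P (A n (P x₀)))
      rw [hPx]
    rw [h3, zero n hn hnN]
    simp
  have hm : (‖x₀‖ : ℂ) ≠ 0 := by exact_mod_cast hxp.ne'
  have nv : ∀ d : ℤ → ℂ, (∀ n, ‖d n‖ = ‖a n‖) → ∑' n, d n * s n ≠ 0 := by
    intro d hd h0
    have h3 := hN (fun n => d n * (s n / (‖x₀‖ : ℂ))) (fun n hn => by
      rw [norm_mul, hd, norm_div, Complex.norm_real, norm_norm]
      refine mul_le_mul_of_nonneg_left ?_ (norm_nonneg _)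
      rw [div_le_iff₀ hxp]
      exact sn n) (fun n hn hnN => by simp only [sz n hn hnN, zero_div, mul_zero])
    have h4 : ∑' n, d n * (s n / (‖x₀‖ : ℂ)) = 0 := by
      have : ∀ n, d n * (s n / (‖x₀‖ : ℂ)) = (d n * s n) * (‖x₀‖ : ℂ)⁻¹ := by
        intro n; rw [div_eq_mul_inv]; ring
      simp_rw [this]
      rw [tsum_mul_right, h0, zero_mul]
    rw [h4, s0, div_self hm, mul_one, zero_sub, norm_neg, hd] at h3
    exact lt_irrefl _ h3
  have hax : Summable fun n => ‖a n‖ * ‖x n‖ := by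
    refine Summable.of_nonneg_of_le (fun _ => by positivity) (fun n => ?_) (hWs.mul_right ‖x₀‖)
    rw [mul_assoc]
    exact mul_le_mul_of_nonneg_left (hxn n) (norm_nonneg _)
  have hby : Summable fun n => ‖b n‖ * ‖y n‖ := by
    refine Summable.of_nonneg_of_le (fun _ => by positivity) (fun n => ?_) hWs
    rw [hbn]
    exact mul_le_mul_of_nonneg_left (hyn n) (norm_nonneg _)
  have hax' : Summable fun n => a n • x n := Summable.of_norm (by simpa [norm_smul] using hax)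
  have hby' : Summable fun n => b n • y n := Summable.of_norm (by simpa [norm_smul] using hby)
  refine hyper_of_orbits x y hTx hyT a b (fun k => hconv k) hax hby ?_ ?_
  · intro h0
    refine nv a (fun _ => rfl) ?_
    have h3 := congrArg (y 0) h0
    rw [(y 0).map_tsum hax', map_zero] at h3
    rw [← h3]
    refine tsum_congr fun n => ?_
    rw [map_smul, smul_eq_mul, v1]
  · intro h0
    refine nv b hbn ?_
    have h2 := (ContinuousLinearMap.apply ℂ ℂ (x 0)).map_tsum hby'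
    simp only [ContinuousLinearMap.apply_apply] at h2
    have h3 : (∑' n, b n • y n) (x 0) = 0 := by rw [h0]; rfl
    rw [← h3, h2]
    refine tsum_congr fun n => ?_
    rw [ContinuousLinearMap.smul_apply, smul_eq_mul, v2]

/-- The local theorem for `M(w) U`. -/
theorem local_mod [CompleteSpace X] [MeasurableSpace.CountablySeparated Ω] {μ : Measure Ω}
    [IsProbabilityMeasure μ] (hτ : MeasurePreserving τ μ μ)
    (hM : IsRep M K) (hμ : ∀ E, MeasurableSet E → μ E ≠ 0 → M (ind E) ≠ 0)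
    (hU : IsCovariant τ M K U) {w : Ω → ℂ}
    (hw : Measurable w) {D : ℝ} (h1 : ∀ v, ‖w v‖ ≤ D) (h2 : ∀ v, ‖w v‖⁻¹ ≤ D)
    (hw0 : ∀ v, w v ≠ 0) {t l : ℝ} (ht0 : 0 ≤ t) (ht1 : t < 1)
    (hG : μ {v | (∀ n : ℕ, 1 ≤ n → tz τ n v ≠ v) ∧
      SmallSums τ (fun v => Real.log ‖w v‖ - l) t v} ≠ 0) :
    HasHyper (M w * (U : X →L[ℂ] X)) := by
  set f : Ω → ℝ := fun v => Real.log ‖w v‖ - l with hf
  have hfm : Measurable f := (hw.norm.log).sub_const l
  set G : ℕ → Set Ω := fun R => {v | (∀ n : ℕ, 1 ≤ n → tz τ n v ≠ v) ∧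
    ∀ n : ℕ, |∑ k ∈ Finset.range n, f (tz τ k v)| ≤ R * (1 + (n : ℝ)) ^ t ∧
      |∑ k ∈ Finset.range n, f (tz τ (-((k : ℤ) + 1)) v)| ≤ R * (1 + (n : ℝ)) ^ t} with hGd
  have hGm : ∀ R, MeasurableSet (G R) := by
    intro R
    have h2 : MeasurableSet {v | ∀ n : ℕ, |∑ k ∈ Finset.range n, f (tz τ k v)| ≤ R * (1 + (n : ℝ)) ^ t ∧
      |∑ k ∈ Finset.range n, f (tz τ (-((k : ℤ) + 1)) v)| ≤ R * (1 + (n : ℝ)) ^ t} := by
      rw [ofPred_forall]
      refine MeasurableSet.iInter fun n => ?_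
      have m1 : Measurable fun v => ‖∑ k ∈ Finset.range n, f (tz τ k v)‖ :=
        (Finset.measurable_sum _ fun (k : ℕ) _ => hfm.comp (tz_meas τ (k : ℤ))).norm
      have m2 : Measurable fun v => ‖∑ k ∈ Finset.range n, f (tz τ (-((k : ℤ) + 1)) v)‖ :=
        (Finset.measurable_sum _ fun (k : ℕ) _ =>
          hfm.comp (tz_meas τ (-((k : ℤ) + 1)))).norm
      exact (measurableSet_le m1 measurable_const).inter (measurableSet_le m2 measurable_const)
    exact (meas_aper hτ).inter h2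
  have hGex : ∃ R, μ (G R) ≠ 0 := by
    by_contra hcon
    push Not at hcon
    apply hG
    refine measure_mono_null (t := ⋃ R, G R) ?_ (measure_iUnion_null_iff.2 hcon)
    rintro v ⟨h0, R, hR⟩
    obtain ⟨J, hJ⟩ := exists_nat_ge R
    refine mem_iUnion.2 ⟨J, h0, fun n => ?_⟩
    have h2 : R * (1 + (n : ℝ)) ^ t ≤ J * (1 + (n : ℝ)) ^ t := by gcongr
    exact ⟨(hR n).1.trans h2, (hR n).2.trans h2⟩
  obtain ⟨R, hR⟩ := hGex
  set cc : ℂ := (Real.exp (-l) : ℂ) with hcc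
  have hex : cc ≠ 0 := by rw [hcc]; exact_mod_cast (Real.exp_pos _).ne'
  set w' : Ω → ℂ := fun v => cc * w v with hw'
  have hw'm : Measurable w' := hw.const_mul _
  have hne : ∀ v, w' v ≠ 0 := fun v => mul_ne_zero hex (hw0 v)
  have hcn : ‖cc‖ = Real.exp (-l) := by
    rw [hcc, Complex.norm_real, Real.norm_of_nonneg (Real.exp_pos _).le]
  have hlog : ∀ v, Real.log ‖w' v‖ = f v := by
    intro v
    simp only [hw', hf]
    rw [norm_mul, hcn, Real.log_mul (Real.exp_pos _).ne' (norm_ne_zero_iff.2 (hw0 v)), Real.log_exp]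
    ring
  set D' : ℝ := max 1 (max (Real.exp (-l) * D) (Real.exp l * D)) with hD'
  have b1 : ∀ v, ‖w' v‖ ≤ D' := by
    intro v
    simp only [hw']
    rw [norm_mul, hcn]
    refine le_trans ?_ ((le_max_left _ _).trans (le_max_right _ _))
    exact mul_le_mul_of_nonneg_left (h1 v) (Real.exp_pos _).le
  have b2 : ∀ v, ‖w' v‖⁻¹ ≤ D' := by
    intro v
    simp only [hw']
    rw [norm_mul, hcn, mul_inv, ← Real.exp_neg, neg_neg]
    refine le_trans ?_ ((le_max_right _ _).trans (le_max_right _ _))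
    exact mul_le_mul_of_nonneg_left (h2 v) (Real.exp_pos _).le
  -- the inverse of `M w'`
  have hMw : M w' = cc • M w := hM.smul cc w hw ⟨D, h1⟩
  have hinv : M w' * M (fun v => (w' v)⁻¹) = 1 ∧ M (fun v => (w' v)⁻¹) * M w' = 1 := by
    have hi : ∃ C : ℝ, ∀ v, ‖(w' v)⁻¹‖ ≤ C := ⟨D', fun v => by rw [norm_inv]; exact b2 v⟩
    have hinvm : Measurable fun v => (w' v)⁻¹ := hw'm.inv
    constructor
    · rw [← hM.mul w' (fun v => (w' v)⁻¹) hw'm hinvm ⟨D', b1⟩ hi, ← hM.one]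
      congr 1; funext v; exact mul_inv_cancel₀ (hne v)
    · rw [← hM.mul (fun v => (w' v)⁻¹) w' hinvm hw'm hi ⟨D', b1⟩, ← hM.one]
      congr 1; funext v; exact inv_mul_cancel₀ (hne v)
  let W : (X →L[ℂ] X)ˣ := ⟨M w', M (fun v => (w' v)⁻¹), hinv.1, hinv.2⟩
  have key : HasHyper ((W * U : (X →L[ℂ] X)ˣ) : X →L[ℂ] X) := by
    refine core_mod (θ := t) (R := R) hM hU hw'm (le_max_left _ _) b1 b2 hne (Units.val_mul _ _) ht0 ht1
      fun N => ?_
    obtain ⟨E, g1, g2, g3, g4⟩ := shrink hτ (fun v hv => hv.1) (hGm R) hR N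
    refine ⟨E, g2, hμ E g2 g3, fun v hv n => ?_, g4⟩
    have h5 := (g1 hv).2 n.natAbs
    have h6 : ((n.natAbs : ℕ) : ℝ) = |(n : ℝ)| := by
      rw [Nat.cast_natAbs]; push_cast; rfl
    rw [h6] at h5
    rcases le_total 0 n with hn | hn
    · have h7 : ((n.natAbs : ℕ) : ℤ) = n := by omega
      have h8 := norm_coc_nat (τ := τ) (w := w') (v := v) (fun k => hne _) n.natAbs
      rw [h7] at h8
      have h9 : ∑ k ∈ Finset.range n.natAbs, Real.log ‖w' (tz τ k v)‖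
          = ∑ k ∈ Finset.range n.natAbs, f (tz τ k v) :=
        Finset.sum_congr rfl fun k _ => hlog _
      rw [h8, h9, ← Real.exp_neg]
      have h10 := abs_le.1 h5.1
      exact ⟨Real.exp_le_exp.2 h10.2, Real.exp_le_exp.2 (by linarith [h10.1])⟩
    · have h7 : -((n.natAbs : ℕ) : ℤ) = n := by omega
      have h8 := norm_coc_neg (τ := τ) (w := w') (v := v) (fun k => hne _) n.natAbs
      rw [h7] at h8
      have h9 : ∑ k ∈ Finset.range n.natAbs, Real.log ‖w' (tz τ (-((k : ℤ) + 1)) v)‖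
          = ∑ k ∈ Finset.range n.natAbs, f (tz τ (-((k : ℤ) + 1)) v) :=
        Finset.sum_congr rfl fun k _ => hlog _
      rw [h8, h9, ← Real.exp_neg, neg_neg]
      have h10 := abs_le.1 h5.2
      exact ⟨Real.exp_le_exp.2 (by linarith [h10.1]), Real.exp_le_exp.2 h10.2⟩
  have hval : ((W * U : (X →L[ℂ] X)ˣ) : X →L[ℂ] X) = cc • (M w * (U : X →L[ℂ] X)) := by
    rw [Units.val_mul]
    show M w' * _ = _
    rw [hMw, smul_mul_assoc]
  rw [hval] at key
  obtain ⟨V, hV1, hV2, hV3, hV4⟩ := key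
  refine ⟨V, hV1, hV2, hV3, fun S hS x hx => hV4 S ?_ x hx⟩
  rw [mul_smul_comm, smul_mul_assoc, hS]

/-- The theorem on mean squares for `M(w) U`. -/
theorem global_mod [CompleteSpace X] [MeasurableSpace.CountablySeparated Ω] {μ : Measure Ω}
    [IsProbabilityMeasure μ] (hτ : MeasurePreserving τ μ μ)
    (hper : ∀ n : ℕ, 1 ≤ n → μ {v | tz τ n v = v} = 0)
    (hM : IsRep M K) (hμ : ∀ E, MeasurableSet E → μ E ≠ 0 → M (ind E) ≠ 0)
    (hU : IsCovariant τ M K U) {w : Ω → ℂ}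
    (hw : Measurable w) {D : ℝ} (h1 : ∀ v, ‖w v‖ ≤ D) (h2 : ∀ v, ‖w v‖⁻¹ ≤ D)
    (hw0 : ∀ v, w v ≠ 0) {l C δ : ℝ} (hδ : 0 < δ)
    (hS : ∀ n : ℕ, 1 ≤ n → ∫ v, (∑ k ∈ Finset.range n, (Real.log ‖w (tz τ k v)‖ - l)) ^ 2 ∂μ
      ≤ C * (n : ℝ) ^ (2 - 2 * δ)) :
    HasHyper (M w * (U : X →L[ℂ] X)) := by
  obtain ⟨m, hm⟩ := exists_nat_gt (1 / δ)
  have hm' : 1 ≤ ((m + 1 : ℕ) : ℝ) * δ := by
    rw [div_lt_iff₀ hδ] at hm
    push_cast
    nlinarith
  have hfm : Measurable fun v => Real.log ‖w v‖ - l := (hw.norm.log).sub_const l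
  have hfL : MemLp (fun v => Real.log ‖w v‖ - l) 2 μ := by
    refine MemLp.of_bound hfm.aestronglyMeasurable (|Real.log (max D 1)| + |l|) (ae_of_all _ fun v => ?_)
    have hp : 0 < ‖w v‖ := norm_pos_iff.2 (hw0 v)
    have hD1 : ‖w v‖ ≤ max D 1 := (h1 v).trans (le_max_left _ _)
    have hD2 : ‖w v‖⁻¹ ≤ max D 1 := (h2 v).trans (le_max_left _ _)
    have e1 := Real.log_le_log hp hD1
    have e2 := Real.log_le_log (inv_pos.2 hp) hD2
    rw [Real.log_inv] at e2
    have e3 : |Real.log ‖w v‖| ≤ |Real.log (max D 1)| := by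
      rw [abs_le]
      have := le_abs_self (Real.log (max D 1))
      constructor <;> linarith
    calc ‖Real.log ‖w v‖ - l‖ ≤ ‖Real.log ‖w v‖‖ + ‖l‖ := norm_sub_le _ _
      _ ≤ _ := by
        rw [Real.norm_eq_abs, Real.norm_eq_abs]
        linarith
  have a1 := ae_small hτ hfm hfL hm' hS
  have h1m : (1 : ℝ) ≤ ((m + 1 : ℕ) : ℝ) := by push_cast; linarith [(Nat.cast_nonneg m : (0 : ℝ) ≤ m)]
  refine local_mod (t := 1 - 1 / (4 * ((m + 1 : ℕ) : ℝ))) (l := l) hτ hM hμ hU hw h1 h2 hw0 ?_ ?_ ?_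
  · have : 1 / (4 * ((m + 1 : ℕ) : ℝ)) ≤ 1 := by rw [div_le_one (by positivity)]; linarith
    linarith
  · have : 0 < 1 / (4 * ((m + 1 : ℕ) : ℝ)) := by positivity
    linarith
  · intro h0
    have h3 := measure_eq_zero_iff_ae_notMem.1 h0
    have h4 : ∀ᵐ v ∂μ, ∀ n : ℕ, 1 ≤ n → tz τ n v ≠ v := by
      rw [ae_all_iff]
      intro n
      by_cases hn : 1 ≤ n
      · filter_upwards [measure_eq_zero_iff_ae_notMem.1 (hper n hn)] with v hv _
        exact hv
      · exact ae_of_all _ fun v h => absurd h hn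
    obtain ⟨v, hv1, hv3, hv4⟩ := (a1.and (h3.and h4)).exists
    exact hv3 ⟨hv4, hv1⟩

end Pool.Agent.U523.WC
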