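import Pool.Agent.U523.WC.Mod2

/-!
# The local theorem for covariant operators
-/

set_option autoImplicit false
open MeasureTheory Filter Topology Set

namespace Pool.Agent.U523.WC

variable {Ω : Type} [MeasurableSpace Ω] {X : Type} [NormedAddCommGroup X] [NormedSpace ℂ X]
variable {τ : Ω ≃ᵐ Ω} {M : (Ω → ℂ) → (X →L[ℂ] X)} {K : ℝ} {T : (X →L[ℂ] X)ˣ}

theorem covT_zpow
    (hT : ∀ f : Ω → ℂ, Measurable f → (∃ C : ℝ, ∀ v, ‖f v‖ ≤ C) →
      (T : X →L[ℂ] X) * M f = M (fun v => f (τ v)) * (T : X →L[ℂ] X))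
    (n : ℤ) (f : Ω → ℂ) (hf : Measurable f)
    (hb : ∃ C : ℝ, ∀ v, ‖f v‖ ≤ C) :
    ((T ^ n : (X →L[ℂ] X)ˣ) : X →L[ℂ] X) * M f
      = M (fun v => f (tz τ n v)) * ((T ^ n : (X →L[ℂ] X)ˣ) : X →L[ℂ] X) := by
  obtain ⟨C, hC⟩ := hb
  induction n using Int.induction_on generalizing f with
  | zero => simp [tz_zero]
  | succ i ih =>
    have hfτ : Measurable fun v => f (τ v) := hf.comp τ.measurable
    have hfi := ih (fun v => f (τ v)) hfτ (fun v => hC _)
    rw [zpow_add_one, Units.val_mul, mul_assoc, hT f hf ⟨C, hC⟩, ← mul_assoc,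
      hfi, mul_assoc]
    have h9 : (fun v => f (tz τ ((i : ℤ) + 1) v)) = fun v => f (τ (tz τ i v)) := by
      funext v
      rw [tz_succ]
    rw [h9]
  | pred i ih =>
    have h1 := hT (fun v => f (tz τ (-1) v)) (hf.comp (tz_meas τ _)) ⟨C, fun v => hC _⟩
    have h2 : (fun v => f (tz τ (-1) (τ v))) = f := by
      funext v
      rw [← tz_one, ← tz_add]; simp [tz_zero]
    rw [h2] at h1
    have h3 : ((T⁻¹ : (X →L[ℂ] X)ˣ) : X →L[ℂ] X) * M f
        = M (fun v => f (tz τ (-1) v)) * ((T⁻¹ : (X →L[ℂ] X)ˣ) : X →L[ℂ] X) := by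
      rw [Units.inv_mul_eq_iff_eq_mul, ← mul_assoc, h1, mul_assoc, Units.mul_inv, mul_one]
    have hfτ : Measurable fun v => f (tz τ (-1) v) := hf.comp (tz_meas τ _)
    have hfi := ih (fun v => f (tz τ (-1) v)) hfτ (fun v => hC _)
    rw [zpow_sub_one, Units.val_mul, mul_assoc, h3, ← mul_assoc, hfi, mul_assoc]
    have h9 : (fun v => f (tz τ (-(i : ℤ) - 1) v)) = fun v => f (tz τ (-1) (tz τ (-(i : ℤ)) v)) := by
      funext v
      rw [← tz_add]
      have h10 : -1 + -(i : ℤ) = -(i : ℤ) - 1 := by ring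
      rw [h10]
    rw [h9]

theorem core_gen [CompleteSpace X] (hM : IsRep M K)
    (hTc : ∀ f : Ω → ℂ, Measurable f → (∃ C : ℝ, ∀ v, ‖f v‖ ≤ C) →
      (T : X →L[ℂ] X) * M f = M (fun v => f (τ v)) * (T : X →L[ℂ] X))
    {θ R L : ℝ} (hL : 0 ≤ L) (hθ0 : 0 ≤ θ) (hθ1 : θ < 1)
    (hE : ∀ N : ℕ, ∃ E : Set Ω, MeasurableSet E ∧ M (ind E) ≠ 0 ∧
      (∀ n : ℤ, ‖M (ind E) * ((T ^ n : (X →L[ℂ] X)ˣ) : X →L[ℂ] X)‖
          ≤ L * Real.exp (R * (1 + |(n : ℝ)|) ^ θ) ∧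
        ‖((T ^ n : (X →L[ℂ] X)ˣ) : X →L[ℂ] X) * M (ind E)‖
          ≤ L * Real.exp (R * (1 + |(n : ℝ)|) ^ θ)) ∧
      ∀ v ∈ E, ∀ n : ℤ, n ≠ 0 → |n| ≤ N → tz τ n v ∉ E) : HasHyper (T : X →L[ℂ] X) := by
  obtain ⟨a, c, C, hc, ha0, haB, hconv⟩ := exists_divisor ((1 + θ) / 2) (by linarith) (by linarith)
  set B : ℤ → ℝ := fun n => L * Real.exp (R * (1 + |(n : ℝ)|) ^ θ) with hB
  have hBp : ∀ n, 0 ≤ B n := fun n => mul_nonneg hL (Real.exp_pos _).le
  have hWs : Summable fun n => ‖a n‖ * B n := by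
    have h3 := (summable_weight (s := (1 + θ) / 2) (R := R) hθ0 (by linarith) hc).mul_left (L * C)
    refine Summable.of_nonneg_of_le (fun n => by have := hBp n; positivity) (fun n => ?_) h3
    calc ‖a n‖ * B n ≤ (C * Real.exp (-(c * (1 + |(n : ℝ)|) ^ ((1 + θ) / 2)))) * B n :=
          mul_le_mul_of_nonneg_right (haB n) (hBp n)
      _ = _ := by simp only [hB]; ring
  set b : ℤ → ℂ := fun n => e n (1 / 2) * a n with hb
  have hbn : ∀ n, ‖b n‖ = ‖a n‖ := fun n => by simp only [hb, norm_mul, norm_e, one_mul]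
  obtain ⟨N, hN⟩ := tail _ hWs ‖a 0‖ (norm_pos_iff.2 ha0)
  obtain ⟨E, hEm, hEp, hEg, hEd⟩ := hE N
  have him := ind_meas hEm
  have hib : ∃ C : ℝ, ∀ v, ‖ind E v‖ ≤ C := ⟨1, ind_le E⟩
  have himn : ∀ n, Measurable fun v => ind E (tz τ n v) := fun n => him.comp (tz_meas τ n)
  have hibn : ∀ n, ∃ C : ℝ, ∀ v, ‖ind E (tz τ n v)‖ ≤ C := fun n => ⟨1, fun v => ind_le E _⟩
  set P : X →L[ℂ] X := M (ind E) with hP
  set A : ℤ → (X →L[ℂ] X) := fun n => ((T ^ n : (X →L[ℂ] X)ˣ) : X →L[ℂ] X) with hA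
  have hAP : ∀ n, A n * P = M (fun v => ind E (tz τ n v)) * A n := by
    intro n
    exact covT_zpow hTc n _ him hib
  have nPA : ∀ n, ‖P * A n‖ ≤ B n := fun n => (hEg n).1
  have nAP : ∀ n, ‖A n * P‖ ≤ B n := fun n => (hEg n).2
  have zero : ∀ n : ℤ, n ≠ 0 → |n| ≤ N → P * (A n * P) = 0 := by
    intro n hn hnN
    rw [hAP, ← mul_assoc, hP, ← hM.mul _ (fun v => ind E (tz τ n v)) him (himn n) hib (hibn n)]
    have h3 : (fun v => ind E v * ind E (tz τ n v)) = fun _ => 0 := by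
      funext v
      by_cases hv : v ∈ E
      · rw [ind_not (hEd v hv n hn hnN)]; ring
      · rw [ind_not hv]; ring
    rw [h3]
    have h4 := hM.bound (fun _ => 0) 0 measurable_const (fun v => by simp)
    rw [mul_zero] at h4
    rw [norm_le_zero_iff.1 h4, zero_mul]
  obtain ⟨z, hz⟩ : ∃ z, P z ≠ 0 := by
    by_contra hcon
    push Not at hcon
    exact hEp (by ext z; exact hcon z)
  have hPP : P * P = P := by
    rw [hP, ← hM.mul _ _ him him hib hib]
    congr 1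
    funext v
    by_cases hv : v ∈ E
    · rw [ind_mem hv]; ring
    · rw [ind_not hv]; ring
  set x₀ : X := P z with hx₀
  have hPx : P x₀ = x₀ := congrArg (fun S : X →L[ℂ] X => S z) hPP
  have hxp : 0 < ‖x₀‖ := norm_pos_iff.2 hz
  obtain ⟨y', hy1, hy2⟩ := exists_dual_vector ℂ x₀ hxp.ne'
  set x : ℤ → X := fun n => A n x₀ with hx
  set y : ℤ → (X →L[ℂ] ℂ) := fun n => y'.comp (P * A n) with hy
  have hTx : ∀ n, (T : X →L[ℂ] X) (x n) = x (n + 1) := by
    intro n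
    have h3 : (T : X →L[ℂ] X) * A n = A (n + 1) := by
      simp only [hA]
      rw [add_comm, zpow_one_add, Units.val_mul]
    exact congrArg (fun S : X →L[ℂ] X => S x₀) h3
  have hyT : ∀ n h, y n ((T : X →L[ℂ] X) h) = y (n + 1) h := by
    intro n h
    have h3 : A n * (T : X →L[ℂ] X) = A (n + 1) := by
      simp only [hA]
      rw [zpow_add_one, Units.val_mul]
    have h4 := congrArg (fun S : X →L[ℂ] X => y' (P (S h))) h3
    exact h4
  have hA0 : A 0 = 1 := by simp [hA]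
  have hxn : ∀ n, ‖x n‖ ≤ B n * ‖x₀‖ := by
    intro n
    have h3 : x n = (A n * P) x₀ := by
      show A n x₀ = A n (P x₀)
      rw [hPx]
    rw [h3]
    exact ((A n * P).le_opNorm _).trans (mul_le_mul_of_nonneg_right (nAP n) (norm_nonneg _))
  have hyn : ∀ n, ‖y n‖ ≤ B n := by
    intro n
    refine (ContinuousLinearMap.opNorm_comp_le _ _).trans ?_
    rw [hy1, one_mul]
    exact nPA n
  set s : ℤ → ℂ := fun n => y' (P (A n x₀)) with hs
  have v1 : ∀ n, y 0 (x n) = s n := by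
    intro n
    show y' (P (A 0 (A n x₀))) = _
    rw [hA0]; rfl
  have v2 : ∀ n, y n (x 0) = s n := by
    intro n
    show y' (P (A n (A 0 x₀))) = _
    rw [hA0]; rfl
  have s0 : s 0 = (‖x₀‖ : ℂ) := by
    simp only [hs]
    rw [hA0]
    show y' (P x₀) = _
    rw [hPx, hy2]
    rfl
  have sn : ∀ n, ‖s n‖ ≤ B n * ‖x₀‖ := by
    intro n
    have h3 : ‖y' ((P * A n) x₀)‖ ≤ ‖y'‖ * ‖(P * A n) x₀‖ := y'.le_opNorm _
    rw [hy1, one_mul] at h3
    exact h3.trans (((P * A n).le_opNorm _).trans (mul_le_mul_of_nonneg_right (nPA n) (norm_nonneg _)))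
  have sz : ∀ n : ℤ, n ≠ 0 → |n| ≤ N → s n = 0 := by
    intro n hn hnN
    have h3 : s n = y' ((P * (A n * P)) x₀) := by
      show y' (P (A n x₀)) = y' (P (A n (P x₀)))
      rw [hPx]
    rw [h3, zero n hn hnN]
    simp
  have hm : (‖x₀‖ : ℂ) ≠ 0 := by exact_mod_cast hxp.ne'
  have nv : ∀ d : ℤ → ℂ, (∀ n, ‖d n‖ = ‖a n‖) → ∑' n, d n * s n ≠ 0 := by
    intro d hd h0
    have h3 := hN (fun n => d n * (s n / (‖x₀‖ : ℂ))) (fun n hn => by
      rw [norm_mul, hd, norm_div, Complex.norm_real, norm_norm]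
      refine mul_le_mul_of_nonneg_left ?_ (norm_nonneg _)
      rw [div_le_iff₀ hxp]
      exact sn n) (fun n hn hnN => by simp only [sz n hn hnN, zero_div, mul_zero])
    have h4 : ∑' n, d n * (s n / (‖x₀‖ : ℂ)) = 0 := by
      have : ∀ n, d n * (s n / (‖x₀‖ : ℂ)) = (d n * s n) * (‖x₀‖ : ℂ)⁻¹ := by
        intro n; rw [div_eq_mul_inv]; ring
      simp_rw [this]
      rw [tsum_mul_right, h0, zero_mul]
    rw [h4, s0, div_self hm, mul_one, zero_sub, norm_neg, hd] at h3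
    exact lt_irrefl _ h3
  have hax : Summable fun n => ‖a n‖ * ‖x n‖ := by
    refine Summable.of_nonneg_of_le (fun _ => by positivity) (fun n => ?_) (hWs.mul_right ‖x₀‖)
    rw [mul_assoc]
    exact mul_le_mul_of_nonneg_left (hxn n) (norm_nonneg _)
  have hby : Summable fun n => ‖b n‖ * ‖y n‖ := by
    refine Summable.of_nonneg_of_le (fun _ => by positivity) (fun n => ?_) hWs
    rw [hbn]
    exact mul_le_mul_of_nonneg_left (hyn n) (norm_nonneg _)
  have hax' : Summable fun n => a n • x n := Summable.of_norm (by simpa [norm_smul] using hax)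
  have hby' : Summable fun n => b n • y n := Summable.of_norm (by simpa [norm_smul] using hby)
  refine hyper_of_orbits x y hTx hyT a b (fun k => hconv k) hax hby ?_ ?_
  · intro h0
    refine nv a (fun _ => rfl) ?_
    have h3 := congrArg (y 0) h0
    rw [(y 0).map_tsum hax', map_zero] at h3
    rw [← h3]
    refine tsum_congr fun n => ?_
    rw [map_smul, smul_eq_mul, v1]
  · intro h0
    refine nv b hbn ?_
    have h2 := (ContinuousLinearMap.apply ℂ ℂ (x 0)).map_tsum hby'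
    simp only [ContinuousLinearMap.apply_apply] at h2
    have h3 : (∑' n, b n • y n) (x 0) = 0 := by rw [h0]; rfl
    rw [← h3, h2]
    refine tsum_congr fun n => ?_
    rw [ContinuousLinearMap.smul_apply, smul_eq_mul, v2]

/-- The local theorem for covariant operators. -/
theorem local_gen [CompleteSpace X] [MeasurableSpace.CountablySeparated Ω] {μ : Measure Ω}
    [IsProbabilityMeasure μ] (hτ : MeasurePreserving τ μ μ)
    (hM : IsRep M K) (hμ : ∀ E, MeasurableSet E → μ E ≠ 0 → M (ind E) ≠ 0)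
    (hTc : ∀ f : Ω → ℂ, Measurable f → (∃ C : ℝ, ∀ v, ‖f v‖ ≤ C) →
      (T : X →L[ℂ] X) * M f = M (fun v => f (τ v)) * (T : X →L[ℂ] X))
    {G : Set Ω} (hG : MeasurableSet G) (hG0 : μ G ≠ 0)
    (hap : ∀ v ∈ G, ∀ n : ℕ, 1 ≤ n → tz τ n v ≠ v)
    {t R : ℝ} (ht0 : 0 ≤ t) (ht1 : t < 1)
    (hn : ∀ n : ℤ, ‖M (ind G) * ((T ^ n : (X →L[ℂ] X)ˣ) : X →L[ℂ] X)‖
          ≤ Real.exp (R * (1 + |(n : ℝ)|) ^ t) ∧
        ‖((T ^ n : (X →L[ℂ] X)ˣ) : X →L[ℂ] X) * M (ind G)‖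
          ≤ Real.exp (R * (1 + |(n : ℝ)|) ^ t)) :
    HasHyper (T : X →L[ℂ] X) := by
  have hK0 : 0 ≤ K := by
    have := hM.bound (fun _ => 1) 1 measurable_const (fun v => by simp)
    rw [mul_one] at this
    exact (norm_nonneg _).trans this
  refine core_gen (θ := t) (R := R) (L := K) hM hTc hK0 ht0 ht1 fun N => ?_
  obtain ⟨E, g1, g2, g3, g4⟩ := shrink hτ hap hG hG0 N
  have hE1 := ind_meas g2
  have hG1 := ind_meas hG
  have e1 : M (ind E) = M (ind E) * M (ind G) := by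
    rw [← hM.mul _ _ hE1 hG1 ⟨1, ind_le E⟩ ⟨1, ind_le G⟩]
    congr 1
    funext v
    by_cases hv : v ∈ E
    · rw [ind_mem hv, ind_mem (g1 hv)]; ring
    · rw [ind_not hv]; ring
  have e2 : M (ind E) = M (ind G) * M (ind E) := by
    rw [← hM.mul _ _ hG1 hE1 ⟨1, ind_le G⟩ ⟨1, ind_le E⟩]
    congr 1
    funext v
    by_cases hv : v ∈ E
    · rw [ind_mem hv, ind_mem (g1 hv)]; ring
    · rw [ind_not hv]; ring
  have e3 : ‖M (ind E)‖ ≤ K := by
    have := hM.bound (ind E) 1 hE1 (ind_le E)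
    rwa [mul_one] at this
  refine ⟨E, g2, hμ E g2 g3, fun n => ⟨?_, ?_⟩, g4⟩
  · rw [e1, mul_assoc]
    exact (norm_mul_le _ _).trans (mul_le_mul e3 (hn n).1 (norm_nonneg _) hK0)
  · rw [e2, ← mul_assoc]
    refine (norm_mul_le _ _).trans ?_
    rw [mul_comm]
    exact mul_le_mul e3 (hn n).2 (norm_nonneg _) hK0

end Pool.Agent.U523.WC
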