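import Mathlib

/-!
# Zero divisors with subexponentially decaying Fourier coefficients
-/

set_option autoImplicit false
open MeasureTheory Filter Topology Complex Set

namespace Pool.Agent.U523.WC

/-- The character `exp (2 pi i n x)`. -/
noncomputable def e (n : ℤ) (x : ℝ) : ℂ := Complex.exp (2 * Real.pi * I * n * x)

theorem norm_e (n : ℤ) (x : ℝ) : ‖e n x‖ = 1 := by
  have : (2 * Real.pi * I * n * x : ℂ) = ((2 * Real.pi * n * x : ℝ) : ℂ) * I := by
    push_cast; ring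
  rw [e, this, Complex.norm_exp_ofReal_mul_I]

theorem e_zero (x : ℝ) : e 0 x = 1 := by simp [e]

theorem e_at_zero (n : ℤ) : e n 0 = 1 := by simp [e]

theorem e_add (n : ℤ) (x y : ℝ) : e n (x + y) = e n x * e n y := by
  rw [e, e, e, ← Complex.exp_add]; congr 1; push_cast; ring

theorem e_add' (m n : ℤ) (x : ℝ) : e (m + n) x = e m x * e n x := by
  rw [e, e, e, ← Complex.exp_add]; congr 1; push_cast; ring

theorem e_one (n : ℤ) : e n 1 = 1 := by
  have : (2 * Real.pi * I * n * ((1 : ℝ) : ℂ) : ℂ) = n * (2 * Real.pi * I) := by push_cast; ring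
  rw [e, this, Complex.exp_int_mul_two_pi_mul_I]

theorem e_cont (n : ℤ) : Continuous (e n) := by
  unfold e; fun_prop

theorem e_fourier (n : ℤ) (x : ℝ) : fourier n (x : UnitAddCircle) = e n x := by
  rw [fourier_coe_apply]; simp [e]

/-- `a` is summable and its Fourier series vanishes on `[0, L]`. -/
def Vanish (a : ℤ → ℂ) (L : ℝ) : Prop :=
  (Summable fun n => ‖a n‖) ∧ ∀ x ∈ Icc 0 L, ∑' n, a n * e n x = 0

theorem summable_mul_e {a : ℤ → ℂ} (ha : Summable fun n => ‖a n‖) (x : ℝ) :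
    Summable fun n => a n * e n x := by
  refine Summable.of_norm ?_
  simpa [norm_mul, norm_e] using ha

/-- the coefficients at the start -/
noncomputable def base (n : ℤ) : ℂ :=
  if n = 0 then -(Real.pi ^ 2 / 16 : ℝ) else (e n (1 / 8) - 1) ^ 2 / (n : ℂ) ^ 2

theorem bern (x : ℝ) (hx : x ∈ Icc (0 : ℝ) 1) :
    HasSum (fun n : ℤ => 1 / (n : ℂ) ^ 2 * e n x)
      (2 * (Real.pi : ℂ) ^ 2 * ((x : ℂ) ^ 2 - x + 1 / 6)) := by
  have h := hasSum_one_div_pow_mul_fourier_mul_bernoulliFun (k := 2) le_rfl hx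
  have hb : bernoulliFun 2 x = x ^ 2 - x + 1 / 6 := by
    simp [bernoulliFun, Polynomial.bernoulli, Finset.sum_range_succ, bernoulli_two]
    try ring
  have e1 : (-(2 * Real.pi * I) ^ 2 / (Nat.factorial 2 : ℂ) * (bernoulliFun 2 x : ℂ) : ℂ)
      = 2 * (Real.pi : ℂ) ^ 2 * ((x : ℂ) ^ 2 - x + 1 / 6) := by
    rw [hb]
    have : ((2 : ℂ) * Real.pi * I) ^ 2 = -(4 * (Real.pi : ℂ) ^ 2) := by
      rw [mul_pow, mul_pow, I_sq]; ring
    rw [this]
    have h2 : ((Nat.factorial 2 : ℕ) : ℂ) = 2 := by norm_num [Nat.factorial]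
    rw [h2]
    push_cast
    ring
  rw [e1] at h
  have h3 : (fun n : ℤ => 1 / (n : ℂ) ^ 2 * fourier n (x : UnitAddCircle))
      = fun n : ℤ => 1 / (n : ℂ) ^ 2 * e n x := by
    funext n; rw [e_fourier]
  rwa [h3] at h

theorem base_summable : Summable fun n => ‖base n‖ := by
  have h1 : Summable fun n : ℤ => 4 * (1 / (n : ℝ) ^ 2) :=
    (Real.summable_one_div_int_pow.2 (by norm_num)).mul_left 4
  refine Summable.of_norm_bounded_eventually h1 ?_
  have h2 : ∀ᶠ n : ℤ in cofinite, n ≠ 0 := by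
    have : ({0} : Set ℤ).Finite := Set.finite_singleton 0
    exact this.compl_mem_cofinite
  filter_upwards [h2] with n hn
  rw [base, if_neg hn, norm_norm, norm_div, norm_pow, norm_pow]
  have h3 : ‖e n (1 / 8) - 1‖ ≤ 2 := by
    refine (norm_sub_le _ _).trans ?_
    rw [norm_e, norm_one]; norm_num
  have h4 : ‖(n : ℂ)‖ ^ 2 = (n : ℝ) ^ 2 := by
    rw [Complex.norm_intCast, sq_abs]
  rw [h4]
  have h5 : ‖e n (1 / 8) - 1‖ ^ 2 ≤ 4 := by nlinarith [norm_nonneg (e n (1 / 8) - 1)]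
  have h6 : 0 < (n : ℝ) ^ 2 := by positivity
  rw [mul_one_div]
  exact div_le_div_of_nonneg_right h5 h6.le

theorem base_vanish : Vanish base (3 / 4) := by
  refine ⟨base_summable, fun x hx => ?_⟩
  have h1 := bern x ⟨hx.1, hx.2.trans (by norm_num)⟩
  have h2 := bern (x + 1 / 8) ⟨by linarith [hx.1], by linarith [hx.2]⟩
  have h3 := bern (x + 1 / 8 + 1 / 8) ⟨by linarith [hx.1], by linarith [hx.2]⟩
  have h4 := (h3.sub (h2.mul_left 2)).add h1
  have h5 : HasSum (fun n : ℤ => if n = 0 then (-((Real.pi ^ 2 / 16 : ℝ)) : ℂ) else 0)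
      (-((Real.pi ^ 2 / 16 : ℝ)) : ℂ) := hasSum_ite_eq 0 _
  have h6 := h4.add h5
  have h7 : (fun n : ℤ => 1 / (n : ℂ) ^ 2 * e n (x + 1 / 8 + 1 / 8)
      - 2 * (1 / (n : ℂ) ^ 2 * e n (x + 1 / 8)) + 1 / (n : ℂ) ^ 2 * e n x
      + if n = 0 then (-((Real.pi ^ 2 / 16 : ℝ)) : ℂ) else 0) = fun n => base n * e n x := by
    funext n
    by_cases hn : n = 0
    · subst hn
      simp [base, e_zero]
    · rw [if_neg hn, base, if_neg hn, e_add, e_add]
      ring
  have h8 : HasSum (fun n => base n * e n x) 0 := by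
    rw [← h7]
    have h9 : (2 * (Real.pi : ℂ) ^ 2 * (((x + 1 / 8 + 1 / 8 : ℝ) : ℂ) ^ 2
        - ((x + 1 / 8 + 1 / 8 : ℝ) : ℂ) + 1 / 6)
        - 2 * (2 * (Real.pi : ℂ) ^ 2 * (((x + 1 / 8 : ℝ) : ℂ) ^ 2 - ((x + 1 / 8 : ℝ) : ℂ) + 1 / 6))
        + 2 * (Real.pi : ℂ) ^ 2 * ((x : ℂ) ^ 2 - x + 1 / 6) + -((Real.pi ^ 2 / 16 : ℝ) : ℂ)) = 0 := by
      push_cast
      ring
    rw [h9] at h6
    exact h6
  exact h8.tsum_eq

/-- the multiplier of an average over `[0, r]` -/
noncomputable def mult (r : ℝ) (n : ℤ) : ℂ :=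
  if n = 0 then 1 else (e n r - 1) / (2 * Real.pi * I * n * r)

theorem integral_e (r : ℝ) (hr : 0 < r) (n : ℤ) (x : ℝ) :
    ∫ s in (0 : ℝ)..r, e n (x + s) = r * (mult r n * e n x) := by
  by_cases hn : n = 0
  · subst hn
    simp [e_zero, mult]
  · have hc : (2 * Real.pi * I * n : ℂ) ≠ 0 := by
      have h1 : (Real.pi : ℂ) ≠ 0 := by exact_mod_cast Real.pi_ne_zero
      have h2 : (n : ℂ) ≠ 0 := by exact_mod_cast hn
      simp [h1, h2]
    have h1 : (fun s : ℝ => e n (x + s)) = fun s : ℝ => e n x * Complex.exp ((2 * Real.pi * I * n) * s) := by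
      funext s; rw [e_add]; rfl
    rw [h1, intervalIntegral.integral_const_mul, integral_exp_mul_complex hc, mult, if_neg hn, e]
    have hr' : (r : ℂ) ≠ 0 := by exact_mod_cast hr.ne'
    simp only [Complex.ofReal_zero, mul_zero, Complex.exp_zero]
    field_simp
    rfl

theorem norm_mult_le (r : ℝ) (hr : 0 < r) (n : ℤ) : ‖mult r n‖ ≤ 1 := by
  have h1 := integral_e r hr n 0
  rw [e_at_zero, mul_one] at h1
  have h2 : ‖∫ s in (0 : ℝ)..r, e n (0 + s)‖ ≤ 1 * |r - 0| :=
    intervalIntegral.norm_integral_le_of_norm_le_const fun s _ => (norm_e n _).le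
  rw [h1, norm_mul, Complex.norm_real, Real.norm_of_nonneg hr.le, sub_zero, abs_of_pos hr, one_mul]
    at h2
  have h3 : r * ‖mult r n‖ ≤ r * 1 := by linarith
  exact le_of_mul_le_mul_left h3 hr

theorem norm_mult_le' (r : ℝ) (hr : 0 < r) (n : ℤ) (hn : n ≠ 0) :
    ‖mult r n‖ ≤ 1 / (Real.pi * |(n : ℝ)| * r) := by
  rw [mult, if_neg hn, norm_div]
  have h3 : ‖e n r - 1‖ ≤ 2 := by
    refine (norm_sub_le _ _).trans ?_
    rw [norm_e, norm_one]; norm_num
  have h4 : ‖(2 * Real.pi * I * n * r : ℂ)‖ = 2 * (Real.pi * |(n : ℝ)| * r) := by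
    simp only [norm_mul, Complex.norm_I, Complex.norm_real, Complex.norm_intCast,
      Real.norm_of_nonneg hr.le, Real.norm_of_nonneg Real.pi_pos.le, Complex.norm_ofNat]
    ring
  have hn' : 0 < |(n : ℝ)| := abs_pos.2 (by exact_mod_cast hn)
  have hp := Real.pi_pos
  rw [h4, div_le_div_iff₀ (by positivity) (by positivity)]
  nlinarith [mul_pos (mul_pos hp hn') hr]

theorem vanish_step {a : ℤ → ℂ} {L r : ℝ} (h : Vanish a L) (hr : 0 < r) :
    Vanish (fun n => mult r n * a n) (L - r) := by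
  have hs : Summable fun n => ‖mult r n * a n‖ := by
    refine Summable.of_nonneg_of_le (fun _ => norm_nonneg _) (fun n => ?_) h.1
    rw [norm_mul]
    exact mul_le_of_le_one_left (norm_nonneg _) (norm_mult_le r hr n)
  refine ⟨hs, fun x hx => ?_⟩
  have key : HasSum (fun n => ∫ s in (0 : ℝ)..r, a n * e n (x + s))
      (∫ s in (0 : ℝ)..r, ∑' n, a n * e n (x + s)) := by
    have := intervalIntegral.hasSum_intervalIntegral_of_summable_norm (a := 0) (b := r)
      (f := fun n => (⟨fun s : ℝ => a n * e n (x + s), by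
        have := e_cont n
        fun_prop⟩ : C(ℝ, ℂ))) (by
        refine Summable.of_nonneg_of_le (fun _ => norm_nonneg _) (fun n => ?_) h.1
        refine (ContinuousMap.norm_le _ (norm_nonneg _)).2 ?_
        intro s
        simp [norm_e])
    simpa using this
  have h0 : ∫ s in (0 : ℝ)..r, ∑' n, a n * e n (x + s) = 0 := by
    rw [intervalIntegral.integral_congr (g := fun _ => (0 : ℂ)) ?_, intervalIntegral.integral_zero]
    intro s hs
    rw [uIcc_of_le hr.le] at hs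
    exact h.2 _ ⟨by linarith [hx.1, hs.1], by linarith [hx.2, hs.2]⟩
  rw [h0] at key
  have h1 : (fun n => ∫ s in (0 : ℝ)..r, a n * e n (x + s))
      = fun n => (r : ℂ) * (mult r n * a n * e n x) := by
    funext n
    rw [intervalIntegral.integral_const_mul, integral_e r hr]
    ring
  rw [h1] at key
  have h2 := key.tsum_eq
  rw [tsum_mul_left] at h2
  rcases mul_eq_zero.1 h2 with h3 | h3
  · exact absurd h3 (by exact_mod_cast hr.ne')
  · exact h3

end Pool.Agent.U523.WC
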