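import Pool.Agent.U523.WC.Zero

/-!
# The zero divisors
-/

set_option autoImplicit false
open MeasureTheory Filter Topology Complex Set

namespace Pool.Agent.U523.WC

/-- finite products of multipliers -/
noncomputable def prodM (r : ℕ → ℝ) (K : ℕ) (n : ℤ) : ℂ := ∏ k ∈ Finset.range K, mult (r k) n

theorem prodM_zero (r : ℕ → ℝ) (K : ℕ) : prodM r K 0 = 1 := by
  simp [prodM, mult]

theorem norm_prodM_le {r : ℕ → ℝ} (hr : ∀ k, 0 < r k) (K : ℕ) (n : ℤ) : ‖prodM r K n‖ ≤ 1 := by
  rw [prodM, norm_prod]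
  exact Finset.prod_le_one (fun _ _ => norm_nonneg _) fun k _ => norm_mult_le _ (hr k) n

theorem vanish_prod {r : ℕ → ℝ} (hr : ∀ k, 0 < r k) (K : ℕ) :
    Vanish (fun n => prodM r K n * base n) (3 / 4 - ∑ k ∈ Finset.range K, r k) := by
  induction K with
  | zero => simpa [prodM] using base_vanish
  | succ K ih =>
    have h := vanish_step ih (hr K)
    have e1 : (fun n => mult (r K) n * (prodM r K n * base n)) = fun n => prodM r (K + 1) n * base n := by
      funext n
      rw [prodM, prodM, Finset.prod_range_succ]; ring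
    have e2 : 3 / 4 - ∑ k ∈ Finset.range K, r k - r K = 3 / 4 - ∑ k ∈ Finset.range (K + 1), r k := by
      rw [Finset.sum_range_succ]; ring
    rwa [e1, e2] at h

theorem exists_limit {r : ℕ → ℝ} (hr : ∀ k, 0 < r k) (hs : ∀ K, ∑ k ∈ Finset.range K, r k ≤ 1 / 4) :
    ∃ p : ℤ → ℂ, p 0 = 1 ∧ Vanish (fun n => p n * base n) (1 / 2) ∧
      ∀ n (B : ℝ) (K₀ : ℕ), (∀ K, K₀ ≤ K → ‖prodM r K n‖ ≤ B) → ‖p n‖ ≤ B := by
  have hlim : ∀ n : ℤ, ∃ z : ℂ, Tendsto (fun K => prodM r K n) (hyperfilter ℕ : Filter ℕ) (𝓝 z) := by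
    intro n
    have hc : IsCompact (Metric.closedBall (0 : ℂ) 1) := isCompact_closedBall _ _
    have h1 := hc.ultrafilter_le_nhds ((hyperfilter ℕ).map fun K => prodM r K n) (by
      rw [le_principal_iff, Ultrafilter.mem_coe, Ultrafilter.mem_map]
      have h2 : ((fun K => prodM r K n) ⁻¹' Metric.closedBall (0 : ℂ) 1) = Set.univ := by
        ext K
        simpa using norm_prodM_le hr K n
      rw [h2]
      exact Filter.univ_mem)
    obtain ⟨z, -, hz⟩ := h1
    exact ⟨z, hz⟩
  choose p hp using hlim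
  have hle : (hyperfilter ℕ : Filter ℕ) ≤ atTop := by
    rw [← Nat.cofinite_eq_atTop]; exact hyperfilter_le_cofinite
  have hbound : ∀ n (B : ℝ) (K₀ : ℕ), (∀ K, K₀ ≤ K → ‖prodM r K n‖ ≤ B) → ‖p n‖ ≤ B := by
    intro n B K₀ h
    refine le_of_tendsto (hp n).norm ?_
    exact hle ((eventually_ge_atTop K₀).mono fun K hK => h K hK)
  have hp1 : ∀ n, ‖p n‖ ≤ 1 := fun n => hbound n 1 0 fun K _ => norm_prodM_le hr K n
  refine ⟨p, ?_, ⟨?_, ?_⟩, hbound⟩
  · refine tendsto_nhds_unique (hp 0) ?_
    simp_rw [prodM_zero]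
    exact tendsto_const_nhds
  · refine Summable.of_nonneg_of_le (fun _ => norm_nonneg _) (fun n => ?_) base_summable
    rw [norm_mul]
    exact mul_le_of_le_one_left (norm_nonneg _) (hp1 n)
  · intro x hx
    have h1 : Tendsto (fun K => ∑' n, prodM r K n * base n * e n x) (hyperfilter ℕ : Filter ℕ)
        (𝓝 (∑' n, p n * base n * e n x)) := by
      refine tendsto_tsum_of_dominated_convergence (bound := fun n => ‖base n‖) base_summable
        (fun n => ((hp n).mul_const _).mul_const _) (Eventually.of_forall fun K n => ?_)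
      rw [norm_mul, norm_mul, norm_e, mul_one]
      exact mul_le_of_le_one_left (norm_nonneg _) (norm_prodM_le hr K n)
    have h2 : (fun K => ∑' n, prodM r K n * base n * e n x) = fun _ => (0 : ℂ) := by
      funext K
      refine (vanish_prod hr K).2 x ⟨hx.1, ?_⟩
      have := hs K
      linarith [hx.2]
    rw [h2] at h1
    exact tendsto_nhds_unique h1 tendsto_const_nhds

theorem e_half_sum (n : ℤ) (x : ℝ) : e n (x + 1 / 2) = e n (1 / 2) * e n x := by
  rw [e_add]; ring

/-- The convolution of `a` and its translate by half a period is zero. -/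
theorem conv_zero {a : ℤ → ℂ} (h : Vanish a (1 / 2)) (k : ℤ) :
    ∑' m, a m * (e (k - m) (1 / 2) * a (k - m)) = 0 := by
  set b : ℤ → ℂ := fun n => e n (1 / 2) * a n with hb
  have hbs : Summable fun n => ‖b n‖ := by
    simpa [hb, norm_mul, norm_e] using h.1
  have hab : Summable fun q : ℤ × ℤ => ‖a q.1 * b q.2‖ := by
    have := Summable.mul_of_nonneg h.1 hbs (fun _ => norm_nonneg _) (fun _ => norm_nonneg _)
    simpa [norm_mul] using this
  have key := intervalIntegral.hasSum_intervalIntegral_of_summable_norm (a := 0) (b := 1)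
    (f := fun q : ℤ × ℤ => (⟨fun s : ℝ => a q.1 * b q.2 * e (q.1 + q.2 - k) s, by
      have := e_cont (q.1 + q.2 - k)
      fun_prop⟩ : C(ℝ, ℂ))) (by
      refine Summable.of_nonneg_of_le (fun _ => norm_nonneg _) (fun q => ?_) hab
      refine (ContinuousMap.norm_le _ (norm_nonneg _)).2 ?_
      intro s
      simp [norm_e])
  have h0 : ∀ x ∈ Icc (0 : ℝ) 1, ∑' q : ℤ × ℤ, a q.1 * b q.2 * e (q.1 + q.2 - k) x = 0 := by
    intro x hx
    have e1 : ∀ q : ℤ × ℤ, a q.1 * b q.2 * e (q.1 + q.2 - k) x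
        = ((a q.1 * e q.1 x) * (b q.2 * e q.2 x)) * e (-k) x := by
      intro q
      rw [sub_eq_add_neg, e_add', e_add']; ring
    simp_rw [e1]
    rw [tsum_mul_right]
    have e2 : ∑' q : ℤ × ℤ, (a q.1 * e q.1 x) * (b q.2 * e q.2 x)
        = (∑' m, a m * e m x) * ∑' n, b n * e n x := by
      have i1 : Summable fun m => ‖a m * e m x‖ := by simpa [norm_mul, norm_e] using h.1
      have i2 : Summable fun m => ‖b m * e m x‖ := by simpa only [norm_mul, norm_e, mul_one] using hbs
      exact (tsum_mul_tsum_of_summable_norm i1 i2).symm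
    rw [e2]
    rcases le_total x (1 / 2) with hx2 | hx2
    · rw [h.2 x ⟨hx.1, hx2⟩]; ring
    · have e3 : ∑' n, b n * e n x = 0 := by
        rw [← h.2 (x - 1 / 2) ⟨by linarith, by linarith [hx.2]⟩]
        refine tsum_congr fun n => ?_
        have e4 : e n x = e n (x - 1 / 2) * e n (1 / 2) := by
          rw [← e_add]; congr 1; ring
        have e5 : e n (1 / 2) * e n (1 / 2) = 1 := by
          rw [← e_add]
          have : (1 / 2 + 1 / 2 : ℝ) = 1 := by norm_num
          rw [this, e_one]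
        calc b n * e n x = a n * e n (x - 1 / 2) * (e n (1 / 2) * e n (1 / 2)) := by
              rw [e4]; simp only [hb]; ring
          _ = _ := by rw [e5, mul_one]
      rw [e3]; ring
  have h1 : ∫ x in (0 : ℝ)..1, ∑' q : ℤ × ℤ, a q.1 * b q.2 * e (q.1 + q.2 - k) x = 0 := by
    rw [intervalIntegral.integral_congr (g := fun _ => (0 : ℂ)) ?_, intervalIntegral.integral_zero]
    intro x hx
    rw [uIcc_of_le zero_le_one] at hx
    exact h0 x hx
  have h2 : ∀ n : ℤ, ∫ x in (0 : ℝ)..1, e n x = if n = 0 then 1 else 0 := by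
    intro n
    have := integral_e 1 one_pos n 0
    simp only [zero_add] at this
    rw [this]
    by_cases hn : n = 0
    · subst hn; simp [mult, e_zero]
    · simp [mult, hn, e_one]
  have h3 : (fun q : ℤ × ℤ => ∫ x in (0 : ℝ)..1, a q.1 * b q.2 * e (q.1 + q.2 - k) x)
      = fun q => a q.1 * b q.2 * (if q.1 + q.2 - k = 0 then 1 else 0) := by
    funext q
    rw [intervalIntegral.integral_const_mul, h2]
  have key' : HasSum (fun q : ℤ × ℤ => a q.1 * b q.2 * (if q.1 + q.2 - k = 0 then 1 else 0)) 0 := by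
    rw [← h3, ← h1]
    simpa using key
  have h4 := key'.tsum_eq
  rw [key'.summable.tsum_prod' fun m => key'.summable.comp_injective (Prod.mk_right_injective m)] at h4
  rw [← h4]
  refine tsum_congr fun m => ?_
  rw [tsum_eq_single (k - m)]
  · simp [hb]
  · intro n hn
    have : ¬ (m + n - k = 0) := by
      intro h5; apply hn; omega
    simp [this]

end Pool.Agent.U523.WC
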